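import Pool.Agent.Lib.MP_edb5be_nt.EQ.FmEq
import Pool.Agent.Lib.MP_edb5be_nt.ND.H26.Main
import Pool.Agent.Lib.MP_edb5be_nt.ND.Iface2

/-!
Project EQ (MP_edb5be_nt): equidistribution of the `T`-invariant sets in the residue classes modulo
`2 ^ j * 3 ^ k`.
-/

set_option autoImplicit false

namespace Pool.Agent.Lib.MP_edb5be_nt.EQ

open Finset Filter Topology Pool.Agent.Lib.MP_0a5adf_nt.TP Pool.Agent.Lib.MP_edb5be_nt.ND

/-- number of the elements of `B` in `[1, X]` -/
noncomputable def ct (B : Set ℕ) (X : ℝ) : ℝ := ({N : ℕ | N ∈ B ∧ 1 ≤ N ∧ (N : ℝ) ≤ X}.ncard : ℝ)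

theorem hasDensN_iff {B : Set ℕ} {D : ℝ} :
    HasDensN B D ↔ Tendsto (fun X : ℝ => ct B X / X) atTop (𝓝 D) := Iff.rfl

theorem ct_mono {B B' : Set ℕ} (h : B ⊆ B') (X : ℝ) : ct B X ≤ ct B' X := by
  have h1 : {N : ℕ | N ∈ B ∧ 1 ≤ N ∧ (N : ℝ) ≤ X} ⊆ {N : ℕ | N ∈ B' ∧ 1 ≤ N ∧ (N : ℝ) ≤ X} :=
    fun N hN => ⟨h hN.1, hN.2⟩
  unfold ct
  exact_mod_cast Set.ncard_le_ncard h1 (H75.finA B' X)

theorem ct_nonneg (B : Set ℕ) (X : ℝ) : 0 ≤ ct B X := Nat.cast_nonneg _

theorem ct_le (B : Set ℕ) {X : ℝ} (hX : 0 ≤ X) : ct B X ≤ X := by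
  have h1 := H75.ncard_le_floor B X
  have h2 : ct B X ≤ (⌊X⌋₊ : ℝ) := by unfold ct; exact_mod_cast h1
  exact h2.trans (Nat.floor_le hX)

/-- comparison with the count of `[1, 2 ^ y)` -/
theorem ct_near_A (B : Set ℕ) {X : ℝ} (hX : 0 < X) : |ct B X - H75.A B (Real.logb 2 X)| ≤ 1 := by
  have h2y : (2 : ℝ) ^ Real.logb 2 X = X := Real.rpow_logb (by norm_num) (by norm_num) hX
  set y := Real.logb 2 X
  have hsub : {N : ℕ | N ∈ B ∧ 1 ≤ N ∧ (N : ℝ) < 2 ^ y} ⊆
      {N : ℕ | N ∈ B ∧ 1 ≤ N ∧ (N : ℝ) ≤ X} := by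
    rw [← h2y]; exact H75.A_sub B y
  have hle1 : ({N : ℕ | N ∈ B ∧ 1 ≤ N ∧ (N : ℝ) < 2 ^ y}.ncard) ≤
      {N : ℕ | N ∈ B ∧ 1 ≤ N ∧ (N : ℝ) ≤ X}.ncard := Set.ncard_le_ncard hsub (H75.finA _ _)
  have hle2 : {N : ℕ | N ∈ B ∧ 1 ≤ N ∧ (N : ℝ) ≤ X}.ncard ≤
      ({N : ℕ | N ∈ B ∧ 1 ≤ N ∧ (N : ℝ) < 2 ^ y}.ncard) + 1 := by
    have hsub2 : {N : ℕ | N ∈ B ∧ 1 ≤ N ∧ (N : ℝ) ≤ X} ⊆
        insert ⌊X⌋₊ {N : ℕ | N ∈ B ∧ 1 ≤ N ∧ (N : ℝ) < 2 ^ y} := by
      rintro N ⟨a, b, c⟩
      rcases lt_or_eq_of_le c with h | h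
      · exact Or.inr ⟨a, b, by rw [h2y]; exact h⟩
      · left; rw [← h, Nat.floor_natCast]
    exact le_trans (Set.ncard_le_ncard hsub2 (((H75.finA B _).subset hsub).insert _))
      (Set.ncard_insert_le _ _)
  unfold H75.A ct
  have h1 : (({N : ℕ | N ∈ B ∧ 1 ≤ N ∧ (N : ℝ) < 2 ^ y}.ncard : ℕ) : ℝ) ≤
    (({N : ℕ | N ∈ B ∧ 1 ≤ N ∧ (N : ℝ) ≤ X}.ncard : ℕ) : ℝ) := by exact_mod_cast hle1
  have h2 : (({N : ℕ | N ∈ B ∧ 1 ≤ N ∧ (N : ℝ) ≤ X}.ncard : ℕ) : ℝ) ≤
    (({N : ℕ | N ∈ B ∧ 1 ≤ N ∧ (N : ℝ) < 2 ^ y}.ncard : ℕ) : ℝ) + 1 := by exact_mod_cast hle2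
  rw [abs_le]; constructor <;> linarith

/-- From the densities of the dyadic blocks to the natural density. -/
theorem hasDensN_of_gd {B : Set ℕ} {D : ℝ} (h : Tendsto (Gd B) atTop (𝓝 D)) : HasDensN B D := by
  rw [hasDensN_iff, Metric.tendsto_atTop]
  intro ε hε
  obtain ⟨w, hw⟩ := (Metric.tendsto_atTop.1 h) (ε / 4) (by positivity)
  set v : ℝ := max w 0 with hv
  have hv0 : 0 ≤ v := le_max_right _ _
  set K : ℝ := (1 + |D|) * 2 ^ (v + 1) with hK
  have hK0 : 0 ≤ K := by positivity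
  have key : ∀ n : ℕ, ∀ y : ℝ, y ≤ v + 1 + n → |H75.A B y - D * 2 ^ y| ≤ ε / 4 * 2 ^ y + K := by
    intro n
    induction n with
    | zero =>
      intro y hyw
      have h2y : (0 : ℝ) < 2 ^ y := by positivity
      have h1 : |H75.A B y - D * 2 ^ y| ≤ (1 + |D|) * 2 ^ y := by
        refine (abs_sub _ _).trans ?_
        rw [abs_mul, abs_of_pos h2y, abs_of_nonneg (H75.A_nonneg B y)]
        have := H75.A_le B y
        linarith
      have h2 : (2 : ℝ) ^ y ≤ 2 ^ (v + 1) :=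
        Real.rpow_le_rpow_of_exponent_le (by norm_num) (by simpa using hyw)
      have h3 : (1 + |D|) * (2 : ℝ) ^ y ≤ K :=
        mul_le_mul_of_nonneg_left h2 (by positivity)
      have h4 : 0 ≤ ε / 4 * (2 : ℝ) ^ y := by positivity
      linarith
    | succ n ih =>
      intro y hyw
      by_cases hc : y ≤ v + 1 + n
      · exact ih y hc
      · push Not at hc
        have hn : (0 : ℝ) ≤ n := Nat.cast_nonneg _
        obtain ⟨x, rfl⟩ : ∃ x, y = x + 1 := ⟨y - 1, by ring⟩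
        have hxv : v ≤ x := by linarith
        have hx0 : 0 ≤ x := hv0.trans hxv
        have hx : x ≤ v + 1 + n := by push_cast at hyw; linarith
        have h1 := ih x hx
        have h2 := hw x ((le_max_left _ _).trans hxv)
        rw [Real.dist_eq] at h2
        rw [H75.A_succ B x hx0]
        have h2x : (0 : ℝ) < 2 ^ x := by positivity
        have e1 : (2 : ℝ) ^ (x + 1) = 2 * 2 ^ x := by
          rw [Real.rpow_add (by norm_num), Real.rpow_one]; ring
        have e2 : H75.A B x + 2 ^ x * Gd B x - D * 2 ^ (x + 1) =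
            (H75.A B x - D * 2 ^ x) + 2 ^ x * (Gd B x - D) := by rw [e1]; ring
        rw [e2]
        refine (abs_add_le _ _).trans ?_
        rw [abs_mul, abs_of_pos h2x, e1]
        have h3 := mul_le_mul_of_nonneg_left h2.le h2x.le
        linarith
  refine ⟨max 1 (4 * (K + 1) / ε), fun X hX => ?_⟩
  have hX1 : 1 ≤ X := (le_max_left _ _).trans hX
  have hX2 : 4 * (K + 1) / ε ≤ X := (le_max_right _ _).trans hX
  have hX0 : 0 < X := by linarith
  obtain ⟨n, hn⟩ := exists_nat_ge (Real.logb 2 X - v - 1)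
  have h1 := key n (Real.logb 2 X) (by linarith)
  rw [Real.rpow_logb (by norm_num) (by norm_num) hX0] at h1
  have h2 := ct_near_A B hX0
  rw [div_le_iff₀ hε] at hX2
  rw [Real.dist_eq]
  have e : ct B X / X - D = (ct B X - D * X) / X := by field_simp
  rw [e, abs_div, abs_of_pos hX0, div_lt_iff₀ hX0]
  have h3 : |ct B X - D * X| ≤ 1 + (ε / 4 * X + K) := by
    have e2 : ct B X - D * X = (ct B X - H75.A B (Real.logb 2 X)) +
        (H75.A B (Real.logb 2 X) - D * X) := by ring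
    rw [e2]
    exact (abs_add_le _ _).trans (add_le_add h2 h1)
  nlinarith

theorem hasDensN_unique {B : Set ℕ} {D D' : ℝ} (h : HasDensN B D) (h' : HasDensN B D') : D = D' :=
  tendsto_nhds_unique h h'

/-- The classes modulo `3 ^ r`. -/
theorem dens_three (d : Bool) (B : Set ℕ) (lo : ℕ) (hB : InvA d B lo) (D : ℝ)
    (hD : Tendsto (Gd B) atTop (𝓝 D)) (r : ℕ) (ρ : ZMod (3 ^ r)) :
    HasDensN {N : ℕ | N ∈ B ∧ (N : ZMod (3 ^ r)) = ρ} (D / 3 ^ r) := by
  apply hasDensN_of_gd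
  obtain ⟨C, z₀, hC, hfm⟩ := fm_eq r
  set B' : Set ℕ := {N : ℕ | N ∈ B ∧ (N : ZMod (3 ^ r)) = ρ} with hB'
  have h3r : (0 : ℝ) < 3 ^ r := by positivity
  -- the difference tends to zero
  have hdiff : Tendsto (fun z : ℝ => 3 ^ r * Gd B' z - Gd B z) atTop (𝓝 0) := by
    have hbd : ∀ᶠ z : ℝ in atTop, ‖3 ^ r * Gd B' z - Gd B z‖ ≤
        (3 ^ r + 1) * (3 * (1 / z) + 2 * (1 / 2 ^ z)) + C * (1 / z) := by
      filter_upwards [eventually_ge_atTop z₀, eventually_ge_atTop (3 : ℝ),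
        eventually_ge_atTop (2 * (lo : ℝ))] with z h1 h2 h3
      have hz0 : 0 < z := by linarith
      have hlo : (lo : ℝ) ≤ 97 / 100 * z := by linarith
      obtain ⟨g, hg, hsm⟩ := smooth (1 / z) (by positivity)
        (one_div_le_one_div_of_le (by norm_num) (by linarith))
      have e3 : 3 / (1 / z) = 3 * z := by field_simp
      rw [e3] at hg
      have h4 := hfm d B B' lo g (3 * z) z ρ h1 hlo hB (by positivity) (by
        have : 3 * z ≤ z * z := mul_le_mul_of_nonneg_right h2 hz0.le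
        have h5 : z * z ≤ z ^ 3 := by nlinarith
        linarith) hg (fun N => Iff.rfl)
      have s1 := hsm B' z hz0.le
      have s2 := hsm B z hz0.le
      rw [Real.norm_eq_abs]
      have e : 3 ^ r * Gd B' z - Gd B z = 3 ^ r * (Gd B' z - Fm B' g z) +
          (3 ^ r * Fm B' g z - Fm B g z) - (Gd B z - Fm B g z) := by ring
      rw [e]
      calc |3 ^ r * (Gd B' z - Fm B' g z) + (3 ^ r * Fm B' g z - Fm B g z) - (Gd B z - Fm B g z)|
          ≤ |3 ^ r * (Gd B' z - Fm B' g z) + (3 ^ r * Fm B' g z - Fm B g z)| +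
            |Gd B z - Fm B g z| := abs_sub _ _
        _ ≤ |3 ^ r * (Gd B' z - Fm B' g z)| + |3 ^ r * Fm B' g z - Fm B g z| +
            |Gd B z - Fm B g z| := by
              have := abs_add_le (3 ^ r * (Gd B' z - Fm B' g z)) (3 ^ r * Fm B' g z - Fm B g z)
              linarith
        _ ≤ 3 ^ r * (3 * (1 / z) + 2 / 2 ^ z) + C / z + (3 * (1 / z) + 2 / 2 ^ z) := by
            rw [abs_mul, abs_of_pos h3r]
            have := mul_le_mul_of_nonneg_left s1 h3r.le
            linarith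
        _ = _ := by ring
    refine squeeze_zero_norm' hbd ?_
    have t1 : Tendsto (fun z : ℝ => 1 / z) atTop (𝓝 0) := by
      simpa using tendsto_inv_atTop_zero
    have hp : Tendsto (fun u : ℝ => (2 : ℝ) ^ u) atTop atTop :=
      tendsto_rpow_atTop_of_base_gt_one 2 (by norm_num)
    have t2 : Tendsto (fun z : ℝ => (1 : ℝ) / 2 ^ z) atTop (𝓝 0) := hp.const_div_atTop 1
    have t3 := (((t1.const_mul 3).add (t2.const_mul 2)).const_mul ((3 : ℝ) ^ r + 1)).add
      (t1.const_mul C)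
    simpa using t3
  have h1 := (hdiff.add hD).div_const ((3 : ℝ) ^ r)
  rw [zero_add] at h1
  refine h1.congr fun z => ?_
  field_simp
  ring

/-! ### Affine images -/

/-- change of finitely many elements -/
theorem hasDensN_congr {C C₂ : Set ℕ} {δ : ℝ} (n₀ : ℕ) (h : ∀ n, n₀ ≤ n → (n ∈ C ↔ n ∈ C₂))
    (hC : HasDensN C₂ δ) : HasDensN C δ := by
  rw [hasDensN_iff] at hC ⊢
  have key : ∀ (P Q : Set ℕ), (∀ n, n₀ ≤ n → (n ∈ P ↔ n ∈ Q)) → ∀ X : ℝ, ct P X ≤ ct Q X + n₀ := by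
    intro P Q hPQ X
    have hs : {N : ℕ | N ∈ P ∧ 1 ≤ N ∧ (N : ℝ) ≤ X} ⊆
        {N : ℕ | N ∈ Q ∧ 1 ≤ N ∧ (N : ℝ) ≤ X} ∪ (range n₀ : Finset ℕ) := by
      rintro N ⟨h1, h2, h3⟩
      by_cases h4 : n₀ ≤ N
      · exact Or.inl ⟨(hPQ N h4).1 h1, h2, h3⟩
      · right
        rw [Finset.coe_range]
        exact not_le.1 h4
    have h1 : {N : ℕ | N ∈ P ∧ 1 ≤ N ∧ (N : ℝ) ≤ X}.ncard ≤
        {N : ℕ | N ∈ Q ∧ 1 ≤ N ∧ (N : ℝ) ≤ X}.ncard + n₀ := by
      refine (Set.ncard_le_ncard hs ((H75.finA Q X).union (Finset.finite_toSet _))).trans ?_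
      refine (Set.ncard_union_le _ _).trans ?_
      rw [Set.ncard_coe_finset, card_range]
    unfold ct
    exact_mod_cast h1
  have hd : Tendsto (fun X : ℝ => ct C X / X - ct C₂ X / X) atTop (𝓝 0) := by
    have t1 : Tendsto (fun z : ℝ => (n₀ : ℝ) * (1 / z)) atTop (𝓝 0) := by
      have : Tendsto (fun z : ℝ => 1 / z) atTop (𝓝 0) := by simpa using tendsto_inv_atTop_zero
      simpa using this.const_mul (n₀ : ℝ)
    refine squeeze_zero_norm' ?_ t1
    filter_upwards [eventually_gt_atTop (0 : ℝ)] with X hX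
    have a1 := key C C₂ h X
    have a2 := key C₂ C (fun n hn => (h n hn).symm) X
    rw [Real.norm_eq_abs, ← sub_div, abs_div, abs_of_pos hX, mul_one_div]
    refine div_le_div_of_nonneg_right ?_ hX.le
    rw [abs_le]
    constructor <;> linarith
  have h1 := hd.add hC
  rw [zero_add] at h1
  refine h1.congr fun X => ?_
  ring

/-- A set in bijection with another one through `2 * m = a * n + b`. -/
theorem hasDensN_affine {C C' : Set ℕ} {δ : ℝ} (a b : ℝ) (ha : 0 < a) (φ : ℕ → ℕ)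
    (h1 : ∀ n ∈ C, 1 ≤ n → φ n ∈ C' ∧ 1 ≤ φ n) (h2 : ∀ m ∈ C', 1 ≤ m → ∃ n ∈ C, 1 ≤ n ∧ φ n = m)
    (h3 : ∀ n ∈ C, 2 * (φ n : ℝ) = a * n + b) (hC : HasDensN C' δ) :
    HasDensN C (a / 2 * δ) := by
  rw [hasDensN_iff] at hC ⊢
  have hct : ∀ X : ℝ, ct C X = ct C' ((a * X + b) / 2) := by
    intro X
    unfold ct
    congr 1
    have himg : φ '' {N : ℕ | N ∈ C ∧ 1 ≤ N ∧ (N : ℝ) ≤ X} =
        {N : ℕ | N ∈ C' ∧ 1 ≤ N ∧ (N : ℝ) ≤ (a * X + b) / 2} := by
      ext m
      constructor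
      · rintro ⟨n, ⟨n1, n2, n3⟩, rfl⟩
        refine ⟨(h1 n n1 n2).1, (h1 n n1 n2).2, ?_⟩
        have := h3 n n1
        have h4 : a * n ≤ a * X := mul_le_mul_of_nonneg_left n3 ha.le
        linarith
      · rintro ⟨m1, m2, m3⟩
        obtain ⟨n, n1, n2, rfl⟩ := h2 m m1 m2
        refine ⟨n, ⟨n1, n2, ?_⟩, rfl⟩
        have := h3 n n1
        have h4 : a * n ≤ a * X := by linarith
        exact le_of_mul_le_mul_left h4 ha
    rw [← himg]
    refine (Set.InjOn.ncard_image ?_).symm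
    rintro n ⟨n1, -, -⟩ n' ⟨n1', -, -⟩ hnn
    have e1 := h3 n n1
    have e2 := h3 n' n1'
    have hnn' : φ n = φ n' := hnn
    rw [hnn'] at e1
    have e3 : a * (n : ℝ) = a * n' := by linarith
    exact_mod_cast mul_left_cancel₀ ha.ne' e3
  simp only [hct]
  have t0 : Tendsto (fun X : ℝ => (a * X + b) / 2) atTop atTop := by
    refine Tendsto.atTop_div_const (by norm_num) ?_
    exact tendsto_atTop_add_const_right _ _ (tendsto_id.const_mul_atTop ha)
  have t1 := hC.comp t0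
  have t2 : Tendsto (fun X : ℝ => (a * X + b) / 2 / X) atTop (𝓝 (a / 2)) := by
    have t3 : Tendsto (fun X : ℝ => a / 2 + b / 2 * (1 / X)) atTop (𝓝 (a / 2)) := by
      have : Tendsto (fun z : ℝ => 1 / z) atTop (𝓝 0) := by simpa using tendsto_inv_atTop_zero
      simpa using (this.const_mul (b / 2)).const_add (a / 2)
    refine t3.congr' ?_
    filter_upwards [eventually_gt_atTop (0 : ℝ)] with X hX
    field_simp
  have t4 := t2.mul t1
  refine t4.congr' ?_
  filter_upwards [eventually_gt_atTop (0 : ℝ), t0.eventually_gt_atTop 0] with X hX hX2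
  simp only [Function.comp]
  have hX3 : a * X + b ≠ 0 := by
    intro h
    rw [h] at hX2
    simp at hX2
  field_simp

/-! ### The classes modulo `2 ^ j * 3 ^ k` -/

/-- The elements of `B` in the class of `c` modulo `2 ^ j * 3 ^ k`. -/
def cls (B : Set ℕ) (j k c : ℕ) : Set ℕ := {n : ℕ | n ∈ B ∧ n ≡ c [MOD 2 ^ j * 3 ^ k]}

theorem dens_cls (d : Bool) (B : Set ℕ) (lo : ℕ) (hB : InvA d B lo) (D : ℝ)
    (hD : Tendsto (Gd B) atTop (𝓝 D)) (j : ℕ) :
    ∀ k c : ℕ, HasDensN (cls B j k c) (D / (2 ^ j * 3 ^ k)) := by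
  induction j with
  | zero =>
    intro k c
    have h := dens_three d B lo hB D hD k (c : ZMod (3 ^ k))
    have e : cls B 0 k c = {N : ℕ | N ∈ B ∧ (N : ZMod (3 ^ k)) = (c : ZMod (3 ^ k))} := by
      ext n
      unfold cls
      rw [Set.mem_ofPred_eq, Set.mem_ofPred_eq, ZMod.natCast_eq_natCast_iff, pow_zero, one_mul]
    rw [e, pow_zero, one_mul]
    exact h
  | succ j ih =>
    intro k c
    rcases Nat.even_or_odd' c with ⟨c', hc | hc⟩
    · -- even class
      subst hc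
      have h := ih k c'
      have hred : HasDensN {n : ℕ | ∃ m ∈ cls B j k c', n = 2 * m} (1 / 2 * (D / (2 ^ j * 3 ^ k))) := by
        refine hasDensN_affine 1 0 one_pos (fun n => n / 2) ?_ ?_ ?_ h
        · rintro n ⟨m, hm, rfl⟩ h1
          rw [Nat.mul_div_cancel_left _ (by norm_num)]
          exact ⟨hm, by omega⟩
        · intro m hm hm1
          exact ⟨2 * m, ⟨m, hm, rfl⟩, by omega, by simp⟩
        · rintro n ⟨m, hm, rfl⟩
          rw [Nat.mul_div_cancel_left _ (by norm_num)]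
          push_cast
          ring
      have e : D / (2 ^ (j + 1) * 3 ^ k) = 1 / 2 * (D / (2 ^ j * 3 ^ k)) := by
        rw [pow_succ]
        field_simp
      rw [e]
      refine hasDensN_congr (2 ^ lo) (fun n hn => ?_) hred
      unfold cls
      constructor
      · rintro ⟨n1, n2⟩
        have hev : n % 2 = 0 := by
          have h2 : n ≡ 2 * c' [MOD 2] := by
            refine n2.of_dvd ?_
            rw [pow_succ]
            exact ⟨2 ^ j * 3 ^ k, by ring⟩
          unfold Nat.ModEq at h2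
          omega
        obtain ⟨m, rfl⟩ : ∃ m, n = 2 * m := ⟨n / 2, by omega⟩
        refine ⟨m, ⟨?_, ?_⟩, rfl⟩
        · have h3 := (hB _ hn).1 n1
          unfold T at h3
          rw [if_pos (by omega), Nat.mul_div_cancel_left _ (by norm_num)] at h3
          exact h3
        · have e2 : 2 ^ (j + 1) * 3 ^ k = 2 * (2 ^ j * 3 ^ k) := by ring
          rw [e2] at n2
          exact Nat.ModEq.mul_left_cancel' (by norm_num) n2
      · rintro ⟨m, ⟨m1, m2⟩, rfl⟩
        refine ⟨?_, ?_⟩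
        · rw [hB _ hn]
          unfold T
          rw [if_pos (by omega), Nat.mul_div_cancel_left _ (by norm_num)]
          exact m1
        · have e2 : 2 ^ (j + 1) * 3 ^ k = 2 * (2 ^ j * 3 ^ k) := by ring
          rw [e2]
          exact Nat.ModEq.mul_left' 2 m2
    · -- odd class
      subst hc
      cases d with
      | true =>
        -- m = (3 n + 1) / 2, class 3 c' + 2
        have h := ih (k + 1) (3 * c' + 2)
        have hiff : ∀ n m : ℕ, 2 * m = 3 * n + 1 →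
            (n ≡ 2 * c' + 1 [MOD 2 ^ (j + 1) * 3 ^ k] ↔
              m ≡ 3 * c' + 2 [MOD 2 ^ j * 3 ^ (k + 1)]) := by
          intro n m hnm
          have e1 : n ≡ 2 * c' + 1 [MOD 2 ^ (j + 1) * 3 ^ k] ↔
              3 * n ≡ 3 * (2 * c' + 1) [MOD 3 * (2 ^ (j + 1) * 3 ^ k)] :=
            ⟨fun h => Nat.ModEq.mul_left' 3 h, fun h => Nat.ModEq.mul_left_cancel' (by norm_num) h⟩
          have e2 : m ≡ 3 * c' + 2 [MOD 2 ^ j * 3 ^ (k + 1)] ↔
              2 * m ≡ 2 * (3 * c' + 2) [MOD 2 * (2 ^ j * 3 ^ (k + 1))] :=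
            ⟨fun h => Nat.ModEq.mul_left' 2 h, fun h => Nat.ModEq.mul_left_cancel' (by norm_num) h⟩
          have e3 : 3 * (2 ^ (j + 1) * 3 ^ k) = 2 * (2 ^ j * 3 ^ (k + 1)) := by ring
          have e4 : 2 * (3 * c' + 2) = 3 * (2 * c' + 1) + 1 := by ring
          rw [e1, e2, e3, hnm, e4]
          exact ⟨fun h => Nat.ModEq.add_right 1 h, fun h => Nat.ModEq.add_right_cancel' 1 h⟩
        have hred : HasDensN {n : ℕ | ∃ m ∈ cls B j (k + 1) (3 * c' + 2), 2 * m = 3 * n + 1}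
            (3 / 2 * (D / (2 ^ j * 3 ^ (k + 1)))) := by
          refine hasDensN_affine 3 1 (by norm_num) (fun n => (3 * n + 1) / 2) ?_ ?_ ?_ h
          · rintro n ⟨m, hm, hmn⟩ h1
            have : (3 * n + 1) / 2 = m := by omega
            simp only [this]
            exact ⟨hm, by omega⟩
          · intro m hm hm1
            have h3 : m ≡ 3 * c' + 2 [MOD 3] := by
              refine hm.2.of_dvd ?_
              rw [pow_succ]
              exact ⟨2 ^ j * 3 ^ k, by ring⟩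
            unfold Nat.ModEq at h3
            have h4 : m % 3 = 2 := by omega
            refine ⟨(2 * m - 1) / 3, ⟨m, hm, by omega⟩, by omega, by omega⟩
          · rintro n ⟨m, hm, hmn⟩
            have : (3 * n + 1) / 2 = m := by omega
            simp only [this]
            exact_mod_cast hmn
        have e : D / (2 ^ (j + 1) * 3 ^ k) = 3 / 2 * (D / (2 ^ j * 3 ^ (k + 1))) := by
          rw [pow_succ, pow_succ]
          field_simp
        rw [e]
        refine hasDensN_congr (2 ^ lo) (fun n hn => ?_) hred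
        constructor
        · rintro ⟨n1, n2⟩
          have hod : n % 2 = 1 := by
            have h2 : n ≡ 2 * c' + 1 [MOD 2] := by
              refine n2.of_dvd ?_
              rw [pow_succ]
              exact ⟨2 ^ j * 3 ^ k, by ring⟩
            unfold Nat.ModEq at h2
            omega
          have h3 := (hB _ hn).1 n1
          unfold T at h3
          rw [if_neg (by omega), if_pos rfl] at h3
          have h4 : 2 * ((3 * n + 1) / 2) = 3 * n + 1 := by omega
          exact ⟨(3 * n + 1) / 2, ⟨h3, (hiff n _ h4).1 n2⟩, h4⟩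
        · rintro ⟨m, ⟨m1, m2⟩, hm⟩
          refine ⟨?_, (hiff n m hm).2 m2⟩
          rw [hB _ hn]
          unfold T
          rw [if_neg (by omega), if_pos rfl]
          have : (3 * n + 1) / 2 = m := by omega
          rw [this]
          exact m1
      | false =>
        have h := ih (k + 1) (3 * c' + 1)
        have hiff : ∀ n m : ℕ, 2 * m + 1 = 3 * n →
            (n ≡ 2 * c' + 1 [MOD 2 ^ (j + 1) * 3 ^ k] ↔
              m ≡ 3 * c' + 1 [MOD 2 ^ j * 3 ^ (k + 1)]) := by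
          intro n m hnm
          have e1 : n ≡ 2 * c' + 1 [MOD 2 ^ (j + 1) * 3 ^ k] ↔
              3 * n ≡ 3 * (2 * c' + 1) [MOD 3 * (2 ^ (j + 1) * 3 ^ k)] :=
            ⟨fun h => Nat.ModEq.mul_left' 3 h, fun h => Nat.ModEq.mul_left_cancel' (by norm_num) h⟩
          have e2 : m ≡ 3 * c' + 1 [MOD 2 ^ j * 3 ^ (k + 1)] ↔
              2 * m ≡ 2 * (3 * c' + 1) [MOD 2 * (2 ^ j * 3 ^ (k + 1))] :=
            ⟨fun h => Nat.ModEq.mul_left' 2 h, fun h => Nat.ModEq.mul_left_cancel' (by norm_num) h⟩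
          have e3 : 3 * (2 ^ (j + 1) * 3 ^ k) = 2 * (2 ^ j * 3 ^ (k + 1)) := by ring
          have e4 : 3 * (2 * c' + 1) = 2 * (3 * c' + 1) + 1 := by ring
          rw [e1, e2, e3, ← hnm, e4]
          exact ⟨fun h => Nat.ModEq.add_right_cancel' 1 h, fun h => Nat.ModEq.add_right 1 h⟩
        have hred : HasDensN {n : ℕ | ∃ m ∈ cls B j (k + 1) (3 * c' + 1), 2 * m + 1 = 3 * n}
            (3 / 2 * (D / (2 ^ j * 3 ^ (k + 1)))) := by
          refine hasDensN_affine 3 (-1) (by norm_num) (fun n => (3 * n - 1) / 2) ?_ ?_ ?_ h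
          · rintro n ⟨m, hm, hmn⟩ h1
            have : (3 * n - 1) / 2 = m := by omega
            simp only [this]
            exact ⟨hm, by omega⟩
          · intro m hm hm1
            have h3 : m ≡ 3 * c' + 1 [MOD 3] := by
              refine hm.2.of_dvd ?_
              rw [pow_succ]
              exact ⟨2 ^ j * 3 ^ k, by ring⟩
            unfold Nat.ModEq at h3
            have h4 : m % 3 = 1 := by omega
            refine ⟨(2 * m + 1) / 3, ⟨m, hm, by omega⟩, by omega, by omega⟩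
          · rintro n ⟨m, hm, hmn⟩
            have : (3 * n - 1) / 2 = m := by omega
            simp only [this]
            have h5 : 2 * (m : ℝ) + 1 = 3 * n := by exact_mod_cast hmn
            linarith
        have e : D / (2 ^ (j + 1) * 3 ^ k) = 3 / 2 * (D / (2 ^ j * 3 ^ (k + 1))) := by
          rw [pow_succ, pow_succ]
          field_simp
        rw [e]
        refine hasDensN_congr (2 ^ lo) (fun n hn => ?_) hred
        constructor
        · rintro ⟨n1, n2⟩
          have hod : n % 2 = 1 := by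
            have h2 : n ≡ 2 * c' + 1 [MOD 2] := by
              refine n2.of_dvd ?_
              rw [pow_succ]
              exact ⟨2 ^ j * 3 ^ k, by ring⟩
            unfold Nat.ModEq at h2
            omega
          have h3 := (hB _ hn).1 n1
          unfold T at h3
          rw [if_neg (by omega), if_neg (by decide)] at h3
          have h4 : 2 * ((3 * n - 1) / 2) + 1 = 3 * n := by omega
          exact ⟨(3 * n - 1) / 2, ⟨h3, (hiff n _ h4).1 n2⟩, h4⟩
        · rintro ⟨m, ⟨m1, m2⟩, hm⟩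
          refine ⟨?_, (hiff n m hm).2 m2⟩
          rw [hB _ hn]
          unfold T
          rw [if_neg (by omega), if_neg (by decide)]
          have : (3 * n - 1) / 2 = m := by omega
          rw [this]
          exact m1

/-- Equidistribution of the `T`-invariant sets. -/
theorem equi (d : Bool) (B : Set ℕ) (lo : ℕ) (hB : InvA d B lo) :
    ∃ D : ℝ, 0 ≤ D ∧ D ≤ 1 ∧ HasDensN B D ∧
      ∀ j k c : ℕ, HasDensN (cls B j k c) (D / (2 ^ j * 3 ^ k)) := by
  obtain ⟨C, u₀, hC, hconv⟩ := convT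
  obtain ⟨D, hD0, hD1, hD⟩ := hconv d B lo hB
  have hgd : Tendsto (Gd B) atTop (𝓝 D) := by
    rw [tendsto_iff_norm_sub_tendsto_zero]
    have t : Tendsto (fun u : ℝ => C * u ^ (-(1 / 38) : ℝ)) atTop (𝓝 0) := by
      simpa using (tendsto_rpow_neg_atTop (show (0 : ℝ) < 1 / 38 by norm_num)).const_mul C
    refine squeeze_zero' (Eventually.of_forall fun _ => norm_nonneg _) ?_ t
    filter_upwards [eventually_ge_atTop u₀, eventually_ge_atTop (2 * (lo : ℝ))] with u h1 h2
    have h3 : (0 : ℝ) ≤ lo := Nat.cast_nonneg _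
    rw [Real.norm_eq_abs]
    exact hD u h1 (by linarith)
  exact ⟨D, hD0, hD1, hasDensN_of_gd hgd, dens_cls d B lo hB D hgd⟩

end Pool.Agent.Lib.MP_edb5be_nt.EQ
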