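import Pool.Agent.Lib.MP_edb5be_nt.ND.H57.S1A
import Pool.Agent.Lib.MP_0a5adf_nt.H37.Mix

/-!
Project EQ (MP_edb5be_nt): the expansion of the logarithmic mass of a residue class modulo `3 ^ r`
of a `T`-invariant set.
-/

set_option autoImplicit false

namespace Pool.Agent.Lib.MP_edb5be_nt.EQ

open Finset Pool.Agent.Lib.MP_0a5adf_nt.TP Pool.Agent.Lib.MP_0a5adf_nt
open Pool.Agent.Lib.MP_0a5adf_nt.H55 Pool.Agent.Lib.MP_edb5be_nt.ND
open Pool.Agent.Lib.MP_edb5be_nt.ND.H57 (th_ge th_le mu_ge mu_le supp_bump cmp sum_eq_of_supp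
  Pc_nonneg)

open Classical in
/-- The index set, with the residue condition modulo `3 ^ (s + r)`. -/
noncomputable def GIr (d : Bool) (i r : ℕ) (u : ℤ) (Ts : Finset ℕ) (M : ℕ) :
    Finset (Σ _ : ℕ, Finset ℕ) :=
  Ts.sigma fun s => (powersetCard s (Icc 1 i)).filter
    fun S => xz (3 ^ (s + r)) S = ((sg d * M - 3 ^ s * u : ℤ) : ZMod (3 ^ (s + r)))

lemma GIr_sub (d : Bool) (i r : ℕ) (u : ℤ) (Ts : Finset ℕ) (M : ℕ) :
    GIr d i r u Ts M ⊆ GI d i Ts M := by
  classical
  intro q hq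
  unfold GIr at hq
  unfold GI
  rw [mem_sigma, mem_filter] at hq ⊢
  refine ⟨hq.1, hq.2.1, ?_⟩
  have h1 := H37.cast_xz (Nat.le_add_right q.1 r) q.2
  rw [hq.2.2, map_intCast] at h1
  rw [← h1]
  push_cast
  have h3 : (3 : ZMod (3 ^ q.1)) ^ q.1 = 0 := by
    have := ZMod.natCast_self (3 ^ q.1)
    push_cast at this
    exact this
  rw [h3, zero_mul, sub_zero]

/-- The residue of `N` modulo `3 ^ r`. -/
lemma res_r (h4 : ∀ (i k : ℕ) (S : Finset ℕ), S ⊆ Icc 1 i →
    (2 : ZMod (3 ^ k)) ^ i * xz (3 ^ k) S = (num i S : ZMod (3 ^ k)))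
    (d : Bool) (i s r M N : ℕ) (u : ℤ) (S : Finset ℕ) (hS : S ⊆ Icc 1 i)
    (hN : (2 : ℤ) ^ i * M = 3 ^ s * N + sg d * num i S) :
    xz (3 ^ (s + r)) S = ((sg d * M - 3 ^ s * u : ℤ) : ZMod (3 ^ (s + r))) ↔
      (3 ^ r : ℤ) ∣ sg d * N - 2 ^ i * u := by
  have hu : IsUnit ((2 : ZMod (3 ^ (s + r))) ^ i) := (isUnit_two (s + r)).pow i
  have h := h4 i (s + r) S hS
  have e1 : (2 : ℤ) ^ i * (sg d * M - 3 ^ s * u) - num i S =
      3 ^ s * (sg d * N - 2 ^ i * u) := by
    have := sg_mul_sg d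
    linear_combination (sg d) * hN + (num i S : ℤ) * this
  rw [← hu.mul_right_inj, h]
  have e2 : ((num i S : ℕ) : ZMod (3 ^ (s + r))) =
      2 ^ i * ((sg d * M - 3 ^ s * u : ℤ) : ZMod (3 ^ (s + r))) ↔
      (((2 : ℤ) ^ i * (sg d * M - 3 ^ s * u) - num i S : ℤ) : ZMod (3 ^ (s + r))) = 0 := by
    push_cast
    rw [sub_eq_zero, eq_comm]
  rw [e2, ZMod.intCast_zmod_eq_zero_iff_dvd, e1]
  push_cast
  rw [pow_add, mul_dvd_mul_iff_left (by positivity)]

/-- expansion of the weighted sums -/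
lemma sum_GWr (d : Bool) (i r : ℕ) (u : ℤ) (Ts : Finset ℕ) (F : Finset ℕ) (w : ℕ → ℕ → ℝ) :
    ∑ M ∈ F, 1 / (M : ℝ) * ∑ s ∈ Ts, 3 ^ s * Pc (s + r) i s (sg d * M - 3 ^ s * u) * w M s =
      ∑ q ∈ F.sigma fun M => GIr d i r u Ts M,
        1 / (q.1 : ℝ) * ((3 : ℝ) ^ q.2.1 / 2 ^ i) * w q.1 q.2.1 := by
  classical
  rw [Finset.sum_sigma]
  refine Finset.sum_congr rfl fun M _ => ?_
  unfold GIr
  rw [Finset.sum_sigma, Finset.mul_sum]
  refine Finset.sum_congr rfl fun s _ => ?_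
  simp only [Finset.sum_const, nsmul_eq_mul]
  unfold Pc
  ring

open Classical in
/-- The expansion for the class of `N` modulo `3 ^ r` (`sg d * N` is congruent to
`2 ^ i * u`). -/
theorem core_r (hD : DynStatement) (hP : PathStatement) (hB : BadNStatement) (hF : PhiStatement)
    (d : Bool) (B : Set ℕ) (lo : ℕ) (g : ℝ → ℝ) (L z : ℝ) (i D k r : ℕ) (u : ℤ)
    (B' : Set ℕ) (hB' : ∀ N, N ∈ B' ↔ N ∈ B ∧ (3 ^ r : ℤ) ∣ sg d * N - 2 ^ i * u)
    (e1 : 10000 ≤ z) (e2 : z ^ (3 / 5 : ℝ) + 1 ≤ z / 1000)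
    (hlo : (lo : ℝ) ≤ 97 / 100 * z) (hInv : InvA d B lo) (hL0 : 0 ≤ L) (hg : Bump L g)
    (hi1 : z / 75 ≤ i) (hi2 : (i : ℝ) ≤ z / 10) (hDd : D = dev ⌊z⌋₊) (hk : k = ⌊z - mu * i⌋₊) :
    |Fm B' g z -
      ∑ M ∈ (blk (k - 2 * D) (4 * D + 4)).filter (fun M => M ∈ B), 1 / (M : ℝ) *
        ∑ s ∈ typ i D, 3 ^ s * Pc (s + r) i s (sg d * M - 3 ^ s * u) *
          g (Real.logb 2 M + i - th * s - z)| ≤
      8 * ((z + 1) * Real.exp (-z ^ (1 / 5 : ℝ))) +
        (3 * L + 4) * (2 : ℝ) ^ (-(z / 2)) * (4 * z + 5) := by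
  have hz0 : (0 : ℝ) < z := by linarith
  set a := ⌊z⌋₊ with ha
  have ha1 : (a : ℝ) ≤ z := Nat.floor_le hz0.le
  have ha2 : z < a + 1 := Nat.lt_floor_add_one z
  have th1 := th_ge
  have th2 := th_le
  have mu1 := mu_ge
  have mu2 := mu_le
  have hi0 : (0 : ℝ) ≤ i := Nat.cast_nonneg _
  have hipos : (0 : ℝ) < i := by
    have : (0 : ℝ) < z / 75 := by positivity
    linarith
  have hmi : mu * i ≤ 21 / 1000 * z := by nlinarith
  have hmi0 : 0 ≤ mu * i := by positivity
  have hD1 : (a : ℝ) ^ (3 / 5 : ℝ) ≤ D := by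
    rw [hDd]; unfold dev; exact Nat.le_ceil _
  have hD2 : (D : ℝ) ≤ z / 1000 := by
    refine le_trans ?_ e2
    rw [hDd]
    unfold dev
    refine (Nat.ceil_lt_add_one (by positivity)).le.trans ?_
    have : (a : ℝ) ^ (3 / 5 : ℝ) ≤ z ^ (3 / 5 : ℝ) :=
      Real.rpow_le_rpow (Nat.cast_nonneg _) ha1 (by norm_num)
    linarith
  have hD3 : (1 : ℝ) ≤ D := by
    refine le_trans ?_ hD1
    exact Real.one_le_rpow (by linarith) (by norm_num)
  have hD0 : (0 : ℝ) ≤ D := by linarith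
  have hthD : th * D / 2 ≤ D := by nlinarith
  have hthD0 : 0 ≤ th * D / 2 := by positivity
  have hk1 : (k : ℝ) ≤ z - mu * i := by
    rw [hk]; exact Nat.floor_le (by linarith)
  have hk2 : z - mu * i < k + 1 := by
    rw [hk]; exact Nat.lt_floor_add_one _
  have hkD : 2 * D ≤ k := by
    have : (2 * D : ℝ) ≤ k := by linarith
    exact_mod_cast this
  have hia : i + 1 ≤ a := by
    have : (i : ℝ) + 1 ≤ a := by linarith
    exact_mod_cast this
  -- the error parameter
  set x : ℝ := (2 : ℝ) ^ (-(z / 2)) with hx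
  have hx0 : 0 ≤ x := by positivity
  have hx1 : x ≤ 1 / 2 := by
    rw [hx]
    calc (2 : ℝ) ^ (-(z / 2)) ≤ (2 : ℝ) ^ (-1 : ℝ) :=
          Real.rpow_le_rpow_of_exponent_le (by norm_num) (by linarith)
      _ = 1 / 2 := by rw [Real.rpow_neg_one]; norm_num
  have hsm : ∀ s ∈ typ i D, (3 : ℝ) ^ s ≤ x * 2 ^ (k - 2 * D) := by
    intro s hs
    obtain ⟨-, hs2⟩ := mem_typ.1 hs
    have hs3 := (abs_le.1 hs2).2
    rw [three_pow, two_pow_sub k D hkD, hx, ← Real.rpow_add two_pos]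
    refine Real.rpow_le_rpow_of_exponent_le (by norm_num) ?_
    have h1 : th * s ≤ 8 / 5 * s := mul_le_mul_of_nonneg_right th2 (Nat.cast_nonneg _)
    linarith
  -- the support
  have hsupp : ∀ N : ℕ, g (Real.logb 2 N - z) / N ≠ 0 →
      0 < N ∧ (2 : ℝ) ^ z ≤ N ∧ (N : ℝ) ≤ 2 ^ (z + 1) := by
    intro N hN
    refine supp_bump hg hz0 N ?_
    intro h
    rw [h, zero_div] at hN
    exact hN rfl
  have hblk : ∀ N : ℕ, (2 : ℝ) ^ z ≤ N → (N : ℝ) ≤ 2 ^ (z + 1) → N ∈ blk a 2 := by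
    intro N h1 h2
    rw [mem_blk]
    constructor
    · have : (2 : ℝ) ^ a ≤ N := by
        refine le_trans ?_ h1
        rw [← Real.rpow_natCast]
        exact Real.rpow_le_rpow_of_exponent_le (by norm_num) ha1
      exact_mod_cast this
    · have : (N : ℝ) < (2 : ℝ) ^ (a + 2) := by
        refine lt_of_le_of_lt h2 ?_
        rw [← Real.rpow_natCast]
        refine Real.rpow_lt_rpow_of_exponent_lt (by norm_num) ?_
        push_cast
        linarith
      exact_mod_cast this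
  set γ : ℕ → ℝ := fun N => g (Real.logb 2 N - z) / N with hγ
  set Rc : ℕ → Prop := fun N => (3 ^ r : ℤ) ∣ sg d * N - 2 ^ i * u with hRc
  have step1 : Fm B' g z = ∑ N ∈ (blk a 2).filter (fun N => N ∈ B ∧ Rc N), γ N := by
    unfold Fm
    refine sum_eq_of_supp _ _ γ fun N hN => ?_
    obtain ⟨h1, h2, h3⟩ := hsupp N hN
    rw [mem_filter, mem_filter, hB' N]
    refine and_congr_left fun _ => ?_
    refine iff_of_true ?_ (hblk N h2 h3)
    unfold upto
    rw [mem_Icc]
    exact ⟨h1, Nat.le_floor h3⟩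
  -- the window
  have hwin : ∀ N : ℕ, (2 : ℝ) ^ z ≤ N → (N : ℝ) ≤ 2 ^ (z + 1) → |2 * (od d i N : ℝ) - i| ≤ D →
      (T d)^[i] N ∈ blk (k - 2 * D) (4 * D + 4) := by
    intro N h1 h2 h3
    have hb := (mem_blk.1 (hblk N h1 h2)).1
    obtain ⟨p1, p2⟩ := hP d N i D a hb hia h3
    rw [mem_blk]
    constructor
    · have h4 : (2 : ℝ) ^ (k - 2 * D) ≤ ((T d)^[i] N : ℝ) := by
        rw [two_pow_sub k D hkD]
        refine le_trans ?_ p1
        calc (2 : ℝ) ^ ((k : ℝ) - 2 * D)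
            ≤ 2 ^ (z - 1 + (-(mu * i) - th * D / 2)) := by
              refine Real.rpow_le_rpow_of_exponent_le (by norm_num) ?_
              linarith
          _ = 2 ^ z / 2 * (2 : ℝ) ^ (-(mu * i) - th * D / 2) := by
              rw [Real.rpow_add (by norm_num), Real.rpow_sub (by norm_num), Real.rpow_one]
          _ ≤ (N : ℝ) / 2 * (2 : ℝ) ^ (-(mu * i) - th * D / 2) := by
              refine mul_le_mul_of_nonneg_right ?_ (by positivity)
              linarith
      exact_mod_cast h4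
    · have h4 : ((T d)^[i] N : ℝ) < (2 : ℝ) ^ (k - 2 * D + (4 * D + 4)) := by
        refine lt_of_le_of_lt p2 ?_
        have e : (2 : ℝ) ^ (k - 2 * D + (4 * D + 4)) = (2 : ℝ) ^ ((k : ℝ) + 2 * D + 4) := by
          rw [← Real.rpow_natCast]
          congr 1
          push_cast [Nat.cast_sub hkD]
          ring
        rw [e]
        calc 2 * (N : ℝ) * (2 : ℝ) ^ (-(mu * i) + th * D / 2)
            ≤ 2 * (2 : ℝ) ^ (z + 1) * (2 : ℝ) ^ (-(mu * i) + th * D / 2) := by
              refine mul_le_mul_of_nonneg_right ?_ (by positivity)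
              linarith
          _ = (2 : ℝ) ^ (1 + (z + 1) + (-(mu * i) + th * D / 2)) := by
              rw [Real.rpow_add two_pos (1 + (z + 1)) _,
                Real.rpow_add two_pos 1 (z + 1), Real.rpow_one]
          _ < (2 : ℝ) ^ ((k : ℝ) + 2 * D + 4) := by
              refine Real.rpow_lt_rpow_of_exponent_lt (by norm_num) ?_
              linarith
      exact_mod_cast h4
  -- invariance along the good trajectories
  have hgood : ∀ N : ℕ, N ∈ blk a 2 → (¬ ∃ j ≤ i, (D : ℝ) < |2 * (od d j N : ℝ) - j|) →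
      (N ∈ B ↔ (T d)^[i] N ∈ B) := by
    intro N hN hgd
    have hb := (mem_blk.1 hN).1
    have hbR : (2 : ℝ) ^ (z - 1) ≤ N := by
      have h1 : (2 : ℝ) ^ a ≤ N := by exact_mod_cast hb
      refine le_trans ?_ h1
      rw [← Real.rpow_natCast]
      exact Real.rpow_le_rpow_of_exponent_le (by norm_num) (by linarith)
    have hj : ∀ j : ℕ, j ≤ i → (N ∈ B ↔ (T d)^[j] N ∈ B) := by
      intro j
      induction j with
      | zero => intro _; rfl
      | succ j ih =>
        intro hji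
        rw [ih (by omega), Function.iterate_succ_apply']
        apply hInv
        have h3 : |2 * (od d j N : ℝ) - j| ≤ D := by
          by_contra hcon
          exact hgd ⟨j, by omega, not_le.1 hcon⟩
        obtain ⟨p1, -⟩ := hP d N j D a hb (by omega) h3
        have hji' : (j : ℝ) ≤ i := by exact_mod_cast (show j ≤ i by omega)
        have hmj : mu * j ≤ mu * i := mul_le_mul_of_nonneg_left hji' (by linarith)
        have h4 : (2 : ℝ) ^ lo ≤ ((T d)^[j] N : ℝ) := by
          refine le_trans ?_ p1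
          calc (2 : ℝ) ^ lo = (2 : ℝ) ^ (lo : ℝ) := (Real.rpow_natCast _ _).symm
            _ ≤ 2 ^ (z - 1 - 1 + (-(mu * j) - th * D / 2)) := by
                refine Real.rpow_le_rpow_of_exponent_le (by norm_num) ?_
                linarith
            _ = 2 ^ (z - 1) / 2 * (2 : ℝ) ^ (-(mu * j) - th * D / 2) := by
                rw [Real.rpow_add (by norm_num), Real.rpow_sub (by norm_num) (z - 1),
                  Real.rpow_one]
            _ ≤ (N : ℝ) / 2 * (2 : ℝ) ^ (-(mu * j) - th * D / 2) := by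
                refine mul_le_mul_of_nonneg_right ?_ (by positivity)
                linarith
        exact_mod_cast h4
    exact hj i le_rfl
  -- the bad numbers
  set F := (blk a 2).filter
    (fun N => |2 * (od d i N : ℝ) - i| ≤ D ∧ (T d)^[i] N ∈ B ∧ Rc N) with hFdef
  set Bd := (blk a 2).filter (fun N => ∃ j ≤ i, (D : ℝ) < |2 * (od d j N : ℝ) - j|) with hBd
  have step2 : |∑ N ∈ (blk a 2).filter (fun N => N ∈ B ∧ Rc N), γ N - ∑ N ∈ F, γ N| ≤
      2 * ∑ N ∈ Bd, (1 : ℝ) / N := by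
    rw [hFdef, hBd, Finset.sum_filter, Finset.sum_filter, Finset.sum_filter,
      ← Finset.sum_sub_distrib, Finset.mul_sum]
    refine (Finset.abs_sum_le_sum_abs _ _).trans (Finset.sum_le_sum fun N hN => ?_)
    have hg2 : |γ N| ≤ 2 * (1 / (N : ℝ)) := by
      simp only [hγ]
      rw [abs_div, Nat.abs_cast, div_eq_mul_one_div]
      exact mul_le_mul_of_nonneg_right (hg.bd _) (by positivity)
    by_cases hb : ∃ j ≤ i, (D : ℝ) < |2 * (od d j N : ℝ) - j|
    · rw [if_pos hb]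
      refine le_trans ?_ hg2
      split_ifs
      · rw [sub_self, abs_zero]; exact abs_nonneg _
      · rw [sub_zero]
      · rw [zero_sub, abs_neg]
      · rw [sub_self, abs_zero]; exact abs_nonneg _
    · rw [if_neg hb, mul_zero]
      have h1 := hgood N hN hb
      have h2 : |2 * (od d i N : ℝ) - i| ≤ D := by
        by_contra hcon
        exact hb ⟨i, le_rfl, not_le.1 hcon⟩
      by_cases h3 : N ∈ B ∧ Rc N
      · rw [if_pos h3, if_pos ⟨h2, h1.1 h3.1, h3.2⟩, sub_self, abs_zero]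
      · rw [if_neg h3, if_neg (fun h => h3 ⟨h1.2 h.2.1, h.2.2⟩), sub_self, abs_zero]
  have hbad := hB.2 d a 2 i D (by omega)
  -- the exponential factor
  have hexp : Real.exp (-((D : ℝ) ^ 2 / (2 * i))) ≤ Real.exp (-z ^ (1 / 5 : ℝ)) := by
    apply Real.exp_le_exp.2
    apply neg_le_neg
    rw [le_div_iff₀ (by positivity)]
    have h1 : z / 2 ≤ a := by linarith
    have h2 : ((z / 2) ^ (3 / 5 : ℝ)) ^ 2 ≤ (D : ℝ) ^ 2 := by
      refine pow_le_pow_left₀ (by positivity) ?_ 2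
      exact (Real.rpow_le_rpow (by positivity) h1 (by norm_num)).trans hD1
    refine le_trans ?_ h2
    have h3 : ((z / 2) ^ (3 / 5 : ℝ)) ^ 2 = (z / 2) * (z / 2) ^ (1 / 5 : ℝ) := by
      rw [← Real.rpow_natCast, ← Real.rpow_mul (by positivity)]
      conv_rhs => rw [← Real.rpow_one (z / 2), ← Real.rpow_mul (by positivity)]
      rw [← Real.rpow_add (by positivity)]
      norm_num
    rw [h3]
    have h4 : z ^ (1 / 5 : ℝ) ≤ 2 * (z / 2) ^ (1 / 5 : ℝ) := by
      rw [Real.div_rpow hz0.le (by norm_num)]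
      have h5 : (2 : ℝ) ^ (1 / 5 : ℝ) ≤ 2 := by
        calc (2 : ℝ) ^ (1 / 5 : ℝ) ≤ (2 : ℝ) ^ (1 : ℝ) :=
              Real.rpow_le_rpow_of_exponent_le (by norm_num) (by norm_num)
          _ = 2 := Real.rpow_one _
      have h6 : 0 ≤ z ^ (1 / 5 : ℝ) := by positivity
      have h7 : 0 < (2 : ℝ) ^ (1 / 5 : ℝ) := by positivity
      rw [mul_div_assoc', le_div_iff₀ h7, mul_comm]
      exact mul_le_mul_of_nonneg_right h5 h6
    calc z ^ (1 / 5 : ℝ) * (2 * i) ≤ 2 * (z / 2) ^ (1 / 5 : ℝ) * (2 * i) :=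
          mul_le_mul_of_nonneg_right h4 (by positivity)
      _ = (4 * i) * (z / 2) ^ (1 / 5 : ℝ) := by ring
      _ ≤ (z / 2) * (z / 2) ^ (1 / 5 : ℝ) :=
          mul_le_mul_of_nonneg_right (by linarith) (by positivity)
  -- the index set
  set F' := (blk (k - 2 * D) (4 * D + 4)).filter (fun M => M ∈ B) with hF'
  set Q0 := F'.sigma fun M => GI d i (typ i D) M with hQ0
  set Q := F'.sigma fun M => GIr d i r u (typ i D) M with hQ
  have hQQ : Q ⊆ Q0 := by
    intro q hq
    rw [hQ, mem_sigma] at hq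
    rw [hQ0, mem_sigma]
    exact ⟨hq.1, GIr_sub d i r u _ _ hq.2⟩
  have hpre : ∀ q ∈ Q, ∃ N : ℕ, img d i N = q := by
    rintro ⟨M, s, S⟩ hq
    have hq := hQQ hq
    rw [hQ0, mem_sigma] at hq
    obtain ⟨hM, hq2⟩ := hq
    unfold GI at hq2
    rw [mem_sigma] at hq2
    obtain ⟨hs, hq3⟩ := hq2
    rw [mem_filter, mem_powersetCard] at hq3
    obtain ⟨⟨hS, hcard⟩, hres⟩ := hq3
    simp only at hM hs hS hcard hres
    subst hcard
    rw [hF', mem_filter, mem_blk] at hM
    obtain ⟨⟨m1, m2⟩, mB⟩ := hM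
    have hs3 := hsm _ hs
    have h3M : 3 ^ S.card ≤ M := by
      have h2 : ((3 : ℝ)) ^ S.card ≤ M := by
        have h3 : (2 : ℝ) ^ (k - 2 * D) ≤ M := by exact_mod_cast m1
        have h4 : (0 : ℝ) < 2 ^ (k - 2 * D) := by positivity
        nlinarith
      exact_mod_cast h2
    obtain ⟨N, hN1, hN2⟩ := preimage hD d i M S hS hres h3M
    refine ⟨N, ?_⟩
    unfold img
    rw [hN1, hN2]
  set NN : (Σ _ : ℕ, Σ _ : ℕ, Finset ℕ) → ℕ := fun q =>
    if h : ∃ N : ℕ, img d i N = q then h.choose else 0 with hNN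
  have hNNspec : ∀ q ∈ Q, img d i (NN q) = q := by
    intro q hq
    have h := hpre q hq
    simp only [hNN, dif_pos h]
    exact h.choose_spec
  have step3 : ∑ N ∈ F, γ N = ∑ q ∈ Q, γ (NN q) := by
    rw [← Finset.sum_image (f := γ) (g := NN) (s := Q)]
    · refine sum_eq_of_supp _ _ γ fun N hN => ?_
      obtain ⟨h1, h2, h3⟩ := hsupp N hN
      constructor
      · intro hNF
        rw [hFdef, mem_filter] at hNF
        obtain ⟨hNb, hNd, hNB, hNR⟩ := hNF
        have hM : (T d)^[i] N ∈ F' := by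
          rw [hF', mem_filter]
          exact ⟨hwin N h2 h3 hNd, hNB⟩
        have hq : img d i N ∈ Q := by
          rw [hQ, mem_sigma]
          refine ⟨hM, ?_⟩
          have hq0 := img_mem hD d (Ts := fun _ => typ i D) hM (mem_typ.2 ⟨od_le d i N, hNd⟩)
          rw [mem_sigma] at hq0
          have hq1 := hq0.2
          unfold GI at hq1
          unfold GIr
          rw [mem_sigma, mem_filter] at hq1 ⊢
          refine ⟨hq1.1, hq1.2.1, ?_⟩
          obtain ⟨b1, -, b3⟩ := hD.1 d N i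
          exact (res_r hD.2.2.2 d i _ r _ N u _ b1 b3).2 hNR
        rw [mem_image]
        refine ⟨img d i N, hq, ?_⟩
        exact img_inj hD d i (hNNspec _ hq)
      · intro hNI
        rw [mem_image] at hNI
        obtain ⟨q, hq, hqN⟩ := hNI
        have hspec := hNNspec q hq
        rw [hqN] at hspec
        rw [← hspec] at hq
        rw [hQ, mem_sigma] at hq
        obtain ⟨q1, q3⟩ := hq
        unfold GIr at q3
        rw [mem_sigma, mem_filter] at q3
        obtain ⟨q2, -, q4⟩ := q3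
        simp only [img] at q1 q2 q4
        obtain ⟨b1, -, b3⟩ := hD.1 d N i
        have hNR := (res_r hD.2.2.2 d i _ r _ N u _ b1 b3).1 q4
        obtain ⟨-, a2, -, -, -⟩ := dyn_real hD d N i
        rw [a2] at q2
        rw [hFdef, mem_filter]
        rw [hF', mem_filter] at q1
        exact ⟨hblk N h2 h3, (mem_typ.1 q2).2, q1.2, hNR⟩
    · intro q hq q' hq' h
      have h1 := hNNspec q hq
      have h2 := hNNspec q' hq'
      rw [← h1, ← h2, h]
  -- the comparison
  set v : (Σ _ : ℕ, Σ _ : ℕ, Finset ℕ) → ℝ := fun q => 1 / (q.1 : ℝ) * ((3 : ℝ) ^ q.2.1 / 2 ^ i)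
    with hv
  have hpt : ∀ q ∈ Q, |γ (NN q) - v q * g (Real.logb 2 q.1 + i - th * q.2.1 - z)| ≤
      (3 * L + 4) * x * v q := by
    intro q hq
    have hspec := hNNspec q hq
    set N := NN q with hNdef
    clear_value N
    subst hspec
    obtain ⟨-, a2, a3, a4, -⟩ := dyn_real hD d N i
    have hq := hQQ hq
    rw [hQ0, mem_sigma] at hq
    unfold GI at hq
    rw [mem_sigma] at hq
    obtain ⟨q1, q2, -⟩ := hq
    simp only [img] at q1 q2
    rw [hF', mem_filter, mem_blk] at q1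
    simp only [hv, hγ, img]
    set s := (par d N i).card with hs
    set M := (T d)^[i] N with hMdef
    have hs3 := hsm s q2
    have m1 : (2 : ℝ) ^ (k - 2 * D) ≤ M := by exact_mod_cast q1.1.1
    have hM0 : (0 : ℝ) < M := lt_of_lt_of_le (by positivity) m1
    have h5 : (3 : ℝ) ^ s ≤ x * M := hs3.trans (mul_le_mul_of_nonneg_left m1 hx0)
    have h2i : (0 : ℝ) < 2 ^ i := by positivity
    have h3s : (0 : ℝ) < 3 ^ s := by positivity
    have hnum0 : (0 : ℝ) ≤ num i (par d N i) := Nat.cast_nonneg _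
    have h6 : (num i (par d N i) : ℝ) ≤ x * (2 ^ i * M) := by
      calc (num i (par d N i) : ℝ) ≤ 3 ^ s * 2 ^ i := by linarith
        _ ≤ x * M * 2 ^ i := mul_le_mul_of_nonneg_right h5 h2i.le
        _ = _ := by ring
    have key : (1 - x) * (2 ^ i * (M : ℝ)) ≤ 3 ^ s * (N : ℝ) ∧
        3 ^ s * (N : ℝ) ≤ (1 + x) * (2 ^ i * M) := by
      rcases Bool.eq_false_or_eq_true d with hd | hd
      · subst hd
        simp only [sg, if_true, Int.cast_one, one_mul] at a3
        constructor <;> nlinarith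
      · subst hd
        simp only [sg, Bool.false_eq_true, if_false, Int.cast_neg, Int.cast_one, neg_mul,
          one_mul] at a3
        constructor <;> nlinarith
    have hQ0 : (0 : ℝ) < 2 ^ i * (M : ℝ) := by positivity
    have hP0 : (0 : ℝ) < 3 ^ s * (N : ℝ) := by
      have : 0 < (1 - x) * (2 ^ i * (M : ℝ)) := mul_pos (by linarith) hQ0
      linarith [key.1]
    have hN0 : (0 : ℝ) < N := (pos_iff_pos_of_mul_pos hP0).1 h3s
    have hc := cmp hg hL0 (th * s + z) hQ0 hx1 key.1 key.2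
    have l1 : Real.logb 2 (3 ^ s * (N : ℝ)) - (th * s + z) = Real.logb 2 N - z := by
      rw [Real.logb_mul h3s.ne' hN0.ne', Real.logb_pow]
      unfold th
      ring
    have l2 : Real.logb 2 (2 ^ i * (M : ℝ)) - (th * s + z) =
        Real.logb 2 M + i - th * s - z := by
      rw [Real.logb_mul h2i.ne' hM0.ne', Real.logb_pow, Real.logb_self_eq_one (by norm_num)]
      ring
    rw [l1, l2] at hc
    have e : g (Real.logb 2 N - z) / N - 1 / (M : ℝ) * (3 ^ s / 2 ^ i) *
        g (Real.logb 2 M + i - th * s - z) =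
        3 ^ s * (g (Real.logb 2 N - z) / (3 ^ s * N) -
          g (Real.logb 2 M + i - th * s - z) / (2 ^ i * M)) := by
      field_simp
    rw [e, abs_mul, abs_of_pos h3s]
    calc (3 : ℝ) ^ s * |g (Real.logb 2 N - z) / (3 ^ s * N) -
          g (Real.logb 2 M + i - th * s - z) / (2 ^ i * M)|
        ≤ 3 ^ s * ((3 * L + 4) * x / (2 ^ i * M)) := mul_le_mul_of_nonneg_left hc h3s.le
      _ = _ := by
        field_simp
  -- the total mass
  have hmass : ∑ q ∈ Q, v q ≤ 4 * D + 5 := by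
    have h0 : ∑ q ∈ Q, v q ≤ ∑ q ∈ Q0, v q := by
      refine Finset.sum_le_sum_of_subset_of_nonneg hQQ fun q _ _ => ?_
      simp only [hv]
      positivity
    refine h0.trans ?_
    have h1 := sum_G d i (fun _ => typ i D) F'
    rw [← hQ0] at h1
    rw [hv, ← h1]
    calc ∑ M ∈ F', 1 / (M : ℝ) * ∑ s ∈ typ i D, 3 ^ s * Pc s i s (sg d * M)
        ≤ ∑ M ∈ blk (k - 2 * D) (4 * D + 4),
            1 / (M : ℝ) * ∑ s ∈ typ i D, 3 ^ s * Pc s i s (sg d * M) := by
          refine Finset.sum_le_sum_of_subset_of_nonneg (filter_subset _ _) fun M _ _ => ?_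
          refine mul_nonneg (by positivity) (Finset.sum_nonneg fun s _ => ?_)
          exact mul_nonneg (by positivity) (Pc_nonneg _ _ _ _)
      _ = ∑ s ∈ typ i D, ∑ M ∈ blk (k - 2 * D) (4 * D + 4),
            1 / (M : ℝ) * (3 ^ s * Pc s i s (sg d * M)) := by
          rw [Finset.sum_comm]
          refine Finset.sum_congr rfl fun M _ => ?_
          rw [Finset.mul_sum]
      _ ≤ ∑ s ∈ typ i D, (((4 * D + 4 : ℕ) : ℝ) + 1) * ((i.choose s : ℝ) / 2 ^ i) := by
          refine Finset.sum_le_sum fun s hs => ?_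
          refine hF.2.2.1 d s i s (k - 2 * D) (4 * D + 4) ?_
          have h2 : (3 : ℝ) ^ s ≤ 2 ^ (k - 2 * D) := by
            refine (hsm s hs).trans ?_
            have : (0 : ℝ) < 2 ^ (k - 2 * D) := by positivity
            nlinarith
          exact_mod_cast h2
      _ ≤ ∑ s ∈ range (i + 1), (((4 * D + 4 : ℕ) : ℝ) + 1) * ((i.choose s : ℝ) / 2 ^ i) := by
          refine Finset.sum_le_sum_of_subset_of_nonneg ?_ fun s _ _ => by positivity
          intro s hs
          rw [mem_range]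
          have := (mem_typ.1 hs).1
          omega
      _ = (((4 * D + 4 : ℕ) : ℝ) + 1) * ((∑ s ∈ range (i + 1), (i.choose s : ℝ)) / 2 ^ i) := by
          rw [← Finset.mul_sum, Finset.sum_div]
      _ = 4 * D + 5 := by
          have h2 : (∑ s ∈ range (i + 1), (i.choose s : ℝ)) = 2 ^ i := by
            exact_mod_cast Nat.sum_range_choose i
          rw [h2, div_self (by positivity)]
          push_cast
          ring
  have step4 : |∑ q ∈ Q, γ (NN q) - ∑ q ∈ Q, v q * g (Real.logb 2 q.1 + i - th * q.2.1 - z)| ≤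
      (3 * L + 4) * x * (4 * D + 5) := by
    rw [← Finset.sum_sub_distrib]
    refine (Finset.abs_sum_le_sum_abs _ _).trans ?_
    refine (Finset.sum_le_sum hpt).trans ?_
    rw [← Finset.mul_sum]
    exact mul_le_mul_of_nonneg_left hmass (by positivity)
  have step5 : ∑ M ∈ F', 1 / (M : ℝ) *
        ∑ s ∈ typ i D, 3 ^ s * Pc (s + r) i s (sg d * M - 3 ^ s * u) *
          g (Real.logb 2 M + i - th * s - z) =
      ∑ q ∈ Q, v q * g (Real.logb 2 q.1 + i - th * q.2.1 - z) :=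
    sum_GWr d i r u (typ i D) F' (fun M s => g (Real.logb 2 M + i - th * s - z))
  rw [step1, step5]
  have hE1 : 2 * ∑ N ∈ Bd, (1 : ℝ) / N ≤ 8 * ((z + 1) * Real.exp (-z ^ (1 / 5 : ℝ))) := by
    have h2 : ((i : ℝ) + 1) * (2 * Real.exp (-((D : ℝ) ^ 2 / (2 * i)))) ≤
        (z + 1) * (2 * Real.exp (-z ^ (1 / 5 : ℝ))) := by
      refine mul_le_mul (by linarith) (by linarith) (by positivity) (by positivity)
    have h3 := hbad
    rw [← hBd] at h3
    push_cast at h3
    linarith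
  have hE2 : (3 * L + 4) * x * (4 * D + 5) ≤ (3 * L + 4) * x * (4 * z + 5) := by
    refine mul_le_mul_of_nonneg_left (by linarith) ?_
    exact mul_nonneg (by linarith) hx0
  rw [← step3] at step4
  calc |∑ N ∈ (blk a 2).filter (fun N => N ∈ B ∧ Rc N), γ N -
        ∑ q ∈ Q, v q * g (Real.logb 2 q.1 + i - th * q.2.1 - z)|
      = |(∑ N ∈ (blk a 2).filter (fun N => N ∈ B ∧ Rc N), γ N - ∑ N ∈ F, γ N) +
          (∑ N ∈ F, γ N - ∑ q ∈ Q, v q * g (Real.logb 2 q.1 + i - th * q.2.1 - z))| := by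
        congr 1; ring
    _ ≤ 8 * ((z + 1) * Real.exp (-z ^ (1 / 5 : ℝ))) + (3 * L + 4) * x * (4 * z + 5) :=
        (abs_add_le _ _).trans (add_le_add (step2.trans hE1) (step4.trans hE2))

end Pool.Agent.Lib.MP_edb5be_nt.EQ
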