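import Pool.Agent.Lib.MP_edb5be_nt.EQ.Equi

/-!
Project EQ (MP_edb5be_nt): equidistribution of the `T`-invariant sets in the residue classes modulo
`2 ^ j * 3 ^ k`, on the integers.
-/

set_option autoImplicit false

namespace Pool.Agent.Lib.MP_edb5be_nt.EQ

open Finset Filter Topology Pool.Agent.Lib.MP_0a5adf_nt.TP Pool.Agent.Lib.MP_edb5be_nt.ND

theorem hasDens_iff {d : Bool} {S : Set ℤ} {D : ℝ} :
    HasDens d S D ↔ HasDensN {n : ℕ | sg d * (n : ℤ) ∈ S} D := by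
  unfold HasDens HasDensN
  have : (fun X : ℝ => cnt d S X / X) = fun X : ℝ =>
      ({N : ℕ | N ∈ {n : ℕ | sg d * (n : ℤ) ∈ S} ∧ 1 ≤ N ∧ (N : ℝ) ≤ X}.ncard : ℝ) / X := by
    funext X
    rw [H38.cnt_eq]
  rw [this]

theorem invA_of {d : Bool} {y : ℝ} {S : Set ℤ} (hS : ∀ x : ℤ, y ≤ |(x : ℝ)| → (x ∈ S ↔ TZ x ∈ S)) :
    ∃ lo : ℕ, InvA d {n : ℕ | sg d * (n : ℤ) ∈ S} lo := by
  obtain ⟨lo, hlo⟩ := pow_unbounded_of_one_lt y (by norm_num : (1 : ℝ) < 2)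
  refine ⟨lo, fun n hn => ?_⟩
  have h1 : y ≤ |((sg d * (n : ℤ) : ℤ) : ℝ)| := by
    rw [H38.abs_sg]
    refine hlo.le.trans ?_
    exact_mod_cast hn
  have h2 := hS _ h1
  rw [H38.tz_sg] at h2
  exact h2

theorem equiZ {d : Bool} {y : ℝ} {S : Set ℤ}
    (hS : ∀ x : ℤ, y ≤ |(x : ℝ)| → (x ∈ S ↔ TZ x ∈ S)) {D : ℝ} (hD : HasDens d S D)
    (j k : ℕ) (a : ℤ) :
    HasDens d {x : ℤ | x ∈ S ∧ x ≡ a [ZMOD 2 ^ j * 3 ^ k]} (D / (2 ^ j * 3 ^ k)) := by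
  obtain ⟨lo, hlo⟩ := invA_of (d := d) hS
  obtain ⟨D', -, -, hD', h⟩ := equi d _ lo hlo
  have e : D' = D := tendsto_nhds_unique hD' (hasDens_iff.1 hD)
  subst e
  set M : ℤ := 2 ^ j * 3 ^ k with hM
  have hM0 : 0 < M := by positivity
  set c : ℕ := ((sg d * a) % M).toNat with hc
  have hc' : (c : ℤ) = (sg d * a) % M := Int.toNat_of_nonneg (Int.emod_nonneg _ hM0.ne')
  have h1 := h j k c
  rw [hasDens_iff]
  have hset : {n : ℕ | sg d * (n : ℤ) ∈ {x : ℤ | x ∈ S ∧ x ≡ a [ZMOD M]}} =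
      cls {n : ℕ | sg d * (n : ℤ) ∈ S} j k c := by
    ext n
    have key : sg d * (n : ℤ) ≡ a [ZMOD M] ↔ n ≡ c [MOD 2 ^ j * 3 ^ k] := by
      rw [← Int.natCast_modEq_iff, hc']
      have hM' : ((2 ^ j * 3 ^ k : ℕ) : ℤ) = M := by push_cast; rfl
      rw [hM']
      have hcm : (sg d * a) % M ≡ sg d * a [ZMOD M] := Int.mod_modEq _ _
      constructor
      · intro h
        have h2 := h.mul_left (sg d)
        rw [H38.sg_sg] at h2
        exact h2.trans hcm.symm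
      · intro h
        have h2 := (h.trans hcm).mul_left (sg d)
        rw [H38.sg_sg] at h2
        exact h2
    show (sg d * (n : ℤ) ∈ S ∧ sg d * (n : ℤ) ≡ a [ZMOD M]) ↔
      (sg d * (n : ℤ) ∈ S ∧ n ≡ c [MOD 2 ^ j * 3 ^ k])
    rw [key]
  rw [hset]
  exact h1

end Pool.Agent.Lib.MP_edb5be_nt.EQ
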