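import Pool.Agent.Lib.MP_edb5be_nt.EQ.Osc
import Pool.Agent.Lib.MP_edb5be_nt.EQ.CoreR
import Pool.Agent.Lib.MP_0a5adf_nt.TP.Main

/-!
Project EQ (MP_edb5be_nt): the masses of the residue classes modulo `3 ^ r` of a `T`-invariant set
are asymptotically equal.
-/

set_option autoImplicit false

namespace Pool.Agent.Lib.MP_edb5be_nt.EQ

open Finset Pool.Agent.Lib.MP_0a5adf_nt.TP Pool.Agent.Lib.MP_0a5adf_nt
open Pool.Agent.Lib.MP_0a5adf_nt.H55 Pool.Agent.Lib.MP_edb5be_nt.ND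
open Pool.Agent.Lib.MP_edb5be_nt.ND.H57 (th_ge th_le mu_ge mu_le)

/-- choice of the residue `u` -/
lemma exists_u (d : Bool) (i r : ℕ) (ρ : ZMod (3 ^ r)) :
    ∃ u : ℤ, ∀ N : ℕ, (3 ^ r : ℤ) ∣ sg d * N - 2 ^ i * u ↔ (N : ZMod (3 ^ r)) = ρ := by
  obtain ⟨u, hu⟩ := ZMod.intCast_surjective
    ((sg d : ZMod (3 ^ r)) * ρ * (2 : ZMod (3 ^ r))⁻¹ ^ i)
  refine ⟨u, fun N => ?_⟩
  have h1 : (3 ^ r : ℤ) = ((3 ^ r : ℕ) : ℤ) := by push_cast; ring
  rw [h1, ← ZMod.intCast_zmod_eq_zero_iff_dvd]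
  push_cast
  rw [hu]
  have h2 : (2 : ZMod (3 ^ r)) ^ i * (2 : ZMod (3 ^ r))⁻¹ ^ i = 1 := by
    rw [← mul_pow, ZMod.mul_inv_of_unit _ (isUnit_two r), one_pow]
  have hsg : ((sg d : ℤ) : ZMod (3 ^ r)) * ((sg d : ℤ) : ZMod (3 ^ r)) = 1 := by
    rw [← Int.cast_mul, sg_mul_sg, Int.cast_one]
  constructor
  · intro h
    linear_combination ((sg d : ℤ) : ZMod (3 ^ r)) * h + (ρ - N) * hsg +
      (((sg d : ℤ) : ZMod (3 ^ r)) * ((sg d : ℤ) : ZMod (3 ^ r)) * ρ) * h2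
  · intro h
    rw [h]
    linear_combination (-((sg d : ℤ) : ZMod (3 ^ r)) * ρ) * h2

open Classical in
/-- Comparison of the two expansions. -/
theorem main_diff (B : Set ℕ) (d : Bool) (i D k r : ℕ) (u : ℤ) (g : ℝ → ℝ) (z E : ℝ)
    (hg : ∀ x, |g x| ≤ 2) (hE : ∀ s ∈ typ i D, ∑ M ∈ blk (k - 2 * D) (4 * D + 4), 1 / (M : ℝ) *
      |3 ^ (s + r) * Pc (s + r) i s (sg d * M - 3 ^ s * u) - 3 ^ s * Pc s i s (sg d * M)| ≤ E) :
    |3 ^ r * (∑ M ∈ (blk (k - 2 * D) (4 * D + 4)).filter (fun M => M ∈ B), 1 / (M : ℝ) *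
        ∑ s ∈ typ i D, 3 ^ s * Pc (s + r) i s (sg d * M - 3 ^ s * u) *
          g (Real.logb 2 M + i - th * s - z)) -
      ∑ M ∈ (blk (k - 2 * D) (4 * D + 4)).filter (fun M => M ∈ B), 1 / (M : ℝ) *
        ∑ s ∈ typ i D, 3 ^ s * Pc s i s (sg d * M) * g (Real.logb 2 M + i - th * s - z)| ≤
      2 * ((typ i D).card * E) := by
  rw [mul_sum, ← sum_sub_distrib]
  refine (abs_sum_le_sum_abs _ _).trans ?_
  have h1 : ∀ M ∈ (blk (k - 2 * D) (4 * D + 4)).filter (fun M => M ∈ B),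
      |3 ^ r * (1 / (M : ℝ) * ∑ s ∈ typ i D, 3 ^ s * Pc (s + r) i s (sg d * M - 3 ^ s * u) *
          g (Real.logb 2 M + i - th * s - z)) -
        1 / (M : ℝ) * ∑ s ∈ typ i D, 3 ^ s * Pc s i s (sg d * M) *
          g (Real.logb 2 M + i - th * s - z)| ≤
      ∑ s ∈ typ i D, 2 * (1 / (M : ℝ) *
        |3 ^ (s + r) * Pc (s + r) i s (sg d * M - 3 ^ s * u) - 3 ^ s * Pc s i s (sg d * M)|) := by
    intro M _
    have e : 3 ^ r * (1 / (M : ℝ) * ∑ s ∈ typ i D,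
        3 ^ s * Pc (s + r) i s (sg d * M - 3 ^ s * u) * g (Real.logb 2 M + i - th * s - z)) -
        1 / (M : ℝ) * ∑ s ∈ typ i D, 3 ^ s * Pc s i s (sg d * M) *
          g (Real.logb 2 M + i - th * s - z) =
        ∑ s ∈ typ i D, 1 / (M : ℝ) * (3 ^ (s + r) * Pc (s + r) i s (sg d * M - 3 ^ s * u) -
          3 ^ s * Pc s i s (sg d * M)) * g (Real.logb 2 M + i - th * s - z) := by
      rw [mul_sum, mul_sum, mul_sum, ← sum_sub_distrib]
      refine sum_congr rfl fun s _ => ?_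
      rw [pow_add]
      ring
    rw [e]
    refine (abs_sum_le_sum_abs _ _).trans (sum_le_sum fun s _ => ?_)
    rw [abs_mul, abs_mul, abs_of_nonneg (show (0 : ℝ) ≤ 1 / (M : ℝ) by positivity)]
    have h2 := hg (Real.logb 2 M + i - th * s - z)
    have h3 : (0 : ℝ) ≤ 1 / (M : ℝ) *
        |3 ^ (s + r) * Pc (s + r) i s (sg d * M - 3 ^ s * u) - 3 ^ s * Pc s i s (sg d * M)| := by
      positivity
    nlinarith
  refine (sum_le_sum h1).trans ?_
  refine (sum_le_sum_of_subset_of_nonneg (filter_subset _ _) fun M _ _ => ?_).trans ?_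
  · exact sum_nonneg fun s _ => by positivity
  rw [sum_comm]
  have h4 : ∀ s ∈ typ i D, ∑ M ∈ blk (k - 2 * D) (4 * D + 4), 2 * (1 / (M : ℝ) *
      |3 ^ (s + r) * Pc (s + r) i s (sg d * M - 3 ^ s * u) - 3 ^ s * Pc s i s (sg d * M)|) ≤
      2 * E := by
    intro s hs
    rw [← mul_sum]
    have := hE s hs
    linarith
  refine (sum_le_sum h4).trans ?_
  rw [sum_const, nsmul_eq_mul]
  linarith

/-- The masses of the residue classes modulo `3 ^ r`. -/
theorem fm_eq (r : ℕ) : ∃ C z₀ : ℝ, 0 < C ∧ ∀ (d : Bool) (B B' : Set ℕ) (lo : ℕ) (g : ℝ → ℝ)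
    (L z : ℝ) (ρ : ZMod (3 ^ r)), z₀ ≤ z → (lo : ℝ) ≤ 97 / 100 * z → InvA d B lo → 0 ≤ L →
    L ≤ z ^ 3 → Bump L g → (∀ N : ℕ, N ∈ B' ↔ N ∈ B ∧ (N : ZMod (3 ^ r)) = ρ) →
    |3 ^ r * Fm B' g z - Fm B g z| ≤ C / z := by
  classical
  obtain ⟨z₁, hz₁⟩ := H57.ev
  obtain ⟨CJ, hCJ0, hCJ⟩ := joscT 4
  refine ⟨3 ^ r * 2 + 2 + 2 * (r * 3 ^ r * CJ * 50 ^ 4), max z₁ (1000 * (r + 1)), by positivity, ?_⟩
  intro d B B' lo g L z ρ hz hlo hInv hL0 hLz hg hB'
  obtain ⟨e1, e2, e3, e4⟩ := hz₁ z ((le_max_left _ _).trans hz)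
  have hzr : 1000 * ((r : ℝ) + 1) ≤ z := (le_max_right _ _).trans hz
  have hz0 : (0 : ℝ) < z := by linarith
  have th1 := th_ge
  have th2 := th_le
  have mu1 := mu_ge
  have mu2 := mu_le
  have hr0 : (0 : ℝ) ≤ r := Nat.cast_nonneg _
  set i := ⌊z / 20⌋₊ with hi
  have hi2 : (i : ℝ) ≤ z / 20 := Nat.floor_le (by linarith)
  have hi1 : z / 20 < i + 1 := Nat.lt_floor_add_one _
  set D := dev ⌊z⌋₊ with hD
  have hD2 : (D : ℝ) ≤ z / 1000 := by
    refine le_trans ?_ e2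
    rw [hD]
    unfold dev
    refine (Nat.ceil_lt_add_one (by positivity)).le.trans ?_
    have : (⌊z⌋₊ : ℝ) ^ (3 / 5 : ℝ) ≤ z ^ (3 / 5 : ℝ) :=
      Real.rpow_le_rpow (Nat.cast_nonneg _) (Nat.floor_le hz0.le) (by norm_num)
    linarith
  have hD0 : (0 : ℝ) ≤ D := Nat.cast_nonneg _
  have hi0 : (0 : ℝ) ≤ i := Nat.cast_nonneg _
  set k := ⌊z - mu * i⌋₊ with hk
  have hmi : mu * i ≤ 21 / 2000 * z := by nlinarith
  have hk2 : z - mu * i < k + 1 := by
    rw [hk]; exact Nat.lt_floor_add_one _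
  have hkD : 2 * D ≤ k := by
    have : (2 * D : ℝ) ≤ k := by linarith
    exact_mod_cast this
  obtain ⟨u, hu⟩ := exists_u d i r ρ
  have hBr : ∀ N, N ∈ B' ↔ N ∈ B ∧ (3 ^ r : ℤ) ∣ sg d * N - 2 ^ i * u := by
    intro N
    rw [hB' N, hu N]
  have c1 := core_r H30.dyn pathT badnT phiT d B lo g L z i D k r u B' hBr e1 e2 hlo hInv hL0 hg
    (by linarith) (by linarith) hD hk
  have c2 := H57.core H30.dyn pathT badnT phiT d B lo g L z i D k e1 e2 hlo hInv hL0 hg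
    (by linarith) (by linarith) hD hk
  -- the error of the expansions
  have hE1 : 8 * ((z + 1) * Real.exp (-z ^ (1 / 5 : ℝ))) ≤ 1 / z := by
    rw [le_div_iff₀ hz0]
    linarith
  have hE2 : (3 * L + 4) * (2 : ℝ) ^ (-(z / 2)) * (4 * z + 5) ≤ 1 / z := by
    rw [le_div_iff₀ hz0]
    calc (3 * L + 4) * (2 : ℝ) ^ (-(z / 2)) * (4 * z + 5) * z
        ≤ (3 * z ^ 3 + 4) * (2 : ℝ) ^ (-(z / 2)) * (4 * z + 5) * z := by
          refine mul_le_mul_of_nonneg_right ?_ hz0.le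
          refine mul_le_mul_of_nonneg_right ?_ (by linarith)
          exact mul_le_mul_of_nonneg_right (by linarith) (by positivity)
      _ = z * ((3 * z ^ 3 + 4) * (2 : ℝ) ^ (-(z / 2)) * (4 * z + 5)) := by ring
      _ ≤ 1 := e4
  have hEE : 8 * ((z + 1) * Real.exp (-z ^ (1 / 5 : ℝ))) +
      (3 * L + 4) * (2 : ℝ) ^ (-(z / 2)) * (4 * z + 5) ≤ 2 / z := by
    have e : 2 / z = 1 / z + 1 / z := by ring
    rw [e]
    exact add_le_add hE1 hE2
  replace c1 := c1.trans hEE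
  replace c2 := c2.trans hEE
  -- the levels
  have hlev : ∀ s ∈ typ i D, z / 50 ≤ s ∧ (s : ℝ) ≤ 3 / 100 * z := by
    intro s hs
    have h1 := abs_le.1 (mem_typ.1 hs).2
    constructor <;> linarith [h1.1, h1.2]
  have hpow : ∀ s ∈ typ i D, 3 ^ (s + r) ≤ 2 ^ (k - 2 * D) := by
    intro s hs
    have h1 : (3 : ℝ) ^ (s + r) ≤ 2 ^ (k - 2 * D) := by
      rw [three_pow, two_pow_sub k D hkD]
      refine Real.rpow_le_rpow_of_exponent_le (by norm_num) ?_
      push_cast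
      have h2 := (hlev s hs).2
      have h3 : th * ((s : ℝ) + r) ≤ 8 / 5 * (s + r) :=
        mul_le_mul_of_nonneg_right th2 (by positivity)
      linarith
    exact_mod_cast h1
  set E : ℝ := z * (r * 3 ^ r * (CJ * 50 ^ 4 / z ^ 4)) with hEdef
  have hE : ∀ s ∈ typ i D, ∑ M ∈ blk (k - 2 * D) (4 * D + 4), 1 / (M : ℝ) *
      |3 ^ (s + r) * Pc (s + r) i s (sg d * M - 3 ^ s * u) - 3 ^ s * Pc s i s (sg d * M)| ≤ E := by
    intro s hs
    refine (mixr H24.powsplit H24.famsplit H37.catSt massT H58.res d i s r _ _ u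
      (hpow s hs)).trans ?_
    rw [hEdef]
    have hs1 := (hlev s hs).1
    refine mul_le_mul ?_ ?_ (sum_nonneg fun j _ => ?_) hz0.le
    · push_cast
      linarith
    · have h2 : ∀ j ∈ range r, 3 ^ (j + 1) * Josc (s + j + 1) (i + 1 + (j + 1)) ≤
          3 ^ r * (CJ * 50 ^ 4 / z ^ 4) := by
        intro j hj
        have hj' : j + 1 ≤ r := mem_range.1 hj
        have h3 := hCJ (s + j + 1) (i + 1 + (j + 1)) (by omega)
        have h4 : CJ / ((s + j + 1 : ℕ) : ℝ) ^ 4 ≤ CJ * 50 ^ 4 / z ^ 4 := by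
          have h5 : (z / 50) ^ 4 ≤ ((s + j + 1 : ℕ) : ℝ) ^ 4 := by
            refine pow_le_pow_left₀ (by positivity) ?_ 4
            push_cast
            have : (0 : ℝ) ≤ j := Nat.cast_nonneg _
            linarith
          have h6 : CJ * 50 ^ 4 / z ^ 4 = CJ / (z / 50) ^ 4 := by
            rw [div_pow]
            field_simp
          rw [h6]
          exact div_le_div_of_nonneg_left hCJ0.le (by positivity) h5
        have h7 : (3 : ℝ) ^ (j + 1) ≤ 3 ^ r := pow_le_pow_right₀ (by norm_num) hj'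
        have h8 : 0 ≤ Josc (s + j + 1) (i + 1 + (j + 1)) := by
          rw [← Jl_self]
          unfold Jl
          exact sum_nonneg fun c _ => osc_nonneg _ _
        exact mul_le_mul h7 (h3.trans h4) h8 (by positivity)
      refine (sum_le_sum h2).trans ?_
      rw [sum_const, nsmul_eq_mul, card_range]
      exact le_of_eq (by ring)
    · refine mul_nonneg (by positivity) ?_
      rw [← Jl_self]
      unfold Jl
      exact sum_nonneg fun c _ => osc_nonneg _ _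
  have hdiff := main_diff B d i D k r u g z E hg.bd hE
  have hcard : ((typ i D).card : ℝ) ≤ z := by
    have h1 : (typ i D).card ≤ i + 1 := by
      unfold typ
      refine (card_filter_le _ _).trans ?_
      rw [card_range]
    have h2 : ((typ i D).card : ℝ) ≤ i + 1 := by exact_mod_cast h1
    linarith
  have hE0 : 0 ≤ E := by rw [hEdef]; positivity
  have hfin : 2 * ((typ i D).card * E) ≤ 2 * (r * 3 ^ r * CJ * 50 ^ 4) / z := by
    calc 2 * ((typ i D).card * E) ≤ 2 * (z * E) := by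
          have := mul_le_mul_of_nonneg_right hcard hE0
          linarith
      _ = 2 * (r * 3 ^ r * CJ * 50 ^ 4) / z ^ 2 := by
          rw [hEdef]
          field_simp
      _ ≤ 2 * (r * 3 ^ r * CJ * 50 ^ 4) / z := by
          refine div_le_div_of_nonneg_left (by positivity) hz0 ?_
          nlinarith
  replace hdiff := hdiff.trans hfin
  set X := ∑ M ∈ (blk (k - 2 * D) (4 * D + 4)).filter (fun M => M ∈ B), 1 / (M : ℝ) *
        ∑ s ∈ typ i D, 3 ^ s * Pc (s + r) i s (sg d * M - 3 ^ s * u) *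
          g (Real.logb 2 M + i - th * s - z) with hX
  set Y := ∑ M ∈ (blk (k - 2 * D) (4 * D + 4)).filter (fun M => M ∈ B), 1 / (M : ℝ) *
        ∑ s ∈ typ i D, 3 ^ s * Pc s i s (sg d * M) * g (Real.logb 2 M + i - th * s - z) with hY
  have e : 3 ^ r * Fm B' g z - Fm B g z =
      3 ^ r * (Fm B' g z - X) + (3 ^ r * X - Y) - (Fm B g z - Y) := by ring
  rw [e]
  have h3r : (0 : ℝ) < 3 ^ r := by positivity
  calc |3 ^ r * (Fm B' g z - X) + (3 ^ r * X - Y) - (Fm B g z - Y)|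
      ≤ |3 ^ r * (Fm B' g z - X) + (3 ^ r * X - Y)| + |Fm B g z - Y| := abs_sub _ _
    _ ≤ |3 ^ r * (Fm B' g z - X)| + |3 ^ r * X - Y| + |Fm B g z - Y| := by
        have := abs_add_le (3 ^ r * (Fm B' g z - X)) (3 ^ r * X - Y)
        linarith
    _ ≤ 3 ^ r * (2 / z) + 2 * (r * 3 ^ r * CJ * 50 ^ 4) / z + 2 / z := by
        rw [abs_mul, abs_of_pos h3r]
        have := mul_le_mul_of_nonneg_left c1 h3r.le
        linarith
    _ = _ := by ring

end Pool.Agent.Lib.MP_edb5be_nt.EQ
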