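import Pool.Agent.Lib.MP_0a5adf_nt.H37.Mix
import Pool.Agent.Lib.MP_0a5adf_nt.H37.Cat

/-!
Project EQ (MP_edb5be_nt): equidistribution of the `T`-invariant sets in the residue classes modulo
`2 ^ j * 3 ^ k`. First part: oscillation of the law of `n` odd steps modulo `3 ^ l`, `l ≥ n`.
-/

set_option autoImplicit false

namespace Pool.Agent.Lib.MP_edb5be_nt.EQ

open Finset Pool.Agent.Lib.MP_0a5adf_nt.TP Pool.Agent.Lib.MP_0a5adf_nt

open Classical in
/-- Number of the words with `n` elements, maximum `c` and residue `X` modulo `3 ^ l`. -/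
noncomputable def nl (l n c : ℕ) (X : ZMod (3 ^ l)) : ℝ :=
  (((Fam n c).filter fun S => xz (3 ^ l) S = X).card : ℝ)

/-- The same number divided by `2 ^ c`. -/
noncomputable def fl (l n c : ℕ) (X : ZMod (3 ^ l)) : ℝ := nl l n c X / 2 ^ c

theorem fl_self (n c : ℕ) : fl n n c = f n c := by
  funext X
  unfold fl nl f
  rfl

open Classical in
theorem nl_eq (l n c : ℕ) (X : ZMod (3 ^ l)) :
    nl l n c X = ∑ S ∈ Fam n c, if xz (3 ^ l) S = X then (1 : ℝ) else 0 := by
  unfold nl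
  rw [card_eq_sum_ones, sum_filter]
  push_cast
  rfl

/-- Adding the last element. -/
theorem nl_succ (hF : FamSplitStatement) (hC : CatStatement) (hM : MassStatement) (l n c : ℕ)
    (X : ZMod (3 ^ l)) :
    nl l (n + 1) c (X + 3 ^ n * (2 : ZMod (3 ^ l))⁻¹ ^ c) = ∑ a ∈ range c, nl l n a X := by
  classical
  rw [nl_eq, hF ℝ n 1 c]
  rw [sum_range_succ, Nat.sub_self]
  have h0 : Fam 1 0 = ∅ := by rw [hM.2.1 0, if_pos rfl]
  have hlast : ∑ A ∈ Fam n c, ∑ B ∈ Fam 1 0,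
      (if xz (3 ^ l) (cat c A B) = X + 3 ^ n * (2 : ZMod (3 ^ l))⁻¹ ^ c then (1 : ℝ) else 0) = 0 := by
    rw [h0]
    simp
  rw [hlast, add_zero]
  refine sum_congr rfl fun a ha => ?_
  have ha' : a < c := mem_range.1 ha
  rw [nl_eq]
  refine sum_congr rfl fun A hA => ?_
  have h1 : Fam 1 (c - a) = {{c - a}} := by rw [hM.2.1 (c - a), if_neg (by omega)]
  rw [h1, sum_singleton]
  have hB : ({c - a} : Finset ℕ) ⊆ Icc 1 (c - a) := by
    intro x hx
    rw [mem_singleton] at hx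
    rw [mem_Icc]
    omega
  have h2 := (hC a (c - a) A {c - a} (H37.fam_sub hA) hB).2.2.1 (3 ^ l)
  have h3 : xz (3 ^ l) {c - a} = (2 : ZMod (3 ^ l))⁻¹ ^ (c - a) := by
    unfold xz rk
    rw [sum_singleton]
    have : (({c - a} : Finset ℕ).filter fun y => y < c - a) = ∅ := by
      rw [filter_eq_empty_iff]
      intro x hx
      rw [mem_singleton] at hx
      omega
    rw [this]
    simp
  rw [h2, h3, H37.fam_card hA]
  have h4 : (2 : ZMod (3 ^ l))⁻¹ ^ c = (2 : ZMod (3 ^ l))⁻¹ ^ a * (2 : ZMod (3 ^ l))⁻¹ ^ (c - a) := by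
    rw [← pow_add]
    congr 1
    omega
  rw [h4, mul_assoc]
  have h5 : (xz (3 ^ l) A + 3 ^ n * ((2 : ZMod (3 ^ l))⁻¹ ^ a * (2 : ZMod (3 ^ l))⁻¹ ^ (c - a)) =
      X + 3 ^ n * ((2 : ZMod (3 ^ l))⁻¹ ^ a * (2 : ZMod (3 ^ l))⁻¹ ^ (c - a))) ↔
      xz (3 ^ l) A = X := by
    constructor
    · intro h; exact add_right_cancel h
    · intro h; rw [h]
  simp only [h5]

/-- Deconvolution. -/
theorem fl_deconv (hF : FamSplitStatement) (hC : CatStatement) (hM : MassStatement) (l n c : ℕ)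
    (X : ZMod (3 ^ l)) :
    fl l n c X = 2 * fl l (n + 1) (c + 1) (X + 3 ^ n * (2 : ZMod (3 ^ l))⁻¹ ^ (c + 1)) -
      fl l (n + 1) c (X + 3 ^ n * (2 : ZMod (3 ^ l))⁻¹ ^ c) := by
  unfold fl
  rw [nl_succ hF hC hM, nl_succ hF hC hM, sum_range_succ]
  rw [pow_succ]
  field_simp
  ring

/-! ### Oscillations -/

theorem osc_shift (l : ℕ) (g : ZMod (3 ^ l) → ℝ) (t : ZMod (3 ^ l)) :
    oscf l (fun X => g (X + t)) = oscf l g := by
  unfold oscf
  rw [← Equiv.sum_comp (Equiv.addRight t)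
    (fun X : ZMod (3 ^ l) => |g X - (g X + g (X + 3 ^ (l - 1)) + g (X + 2 * 3 ^ (l - 1))) / 3|)]
  refine sum_congr rfl fun X _ => ?_
  simp only [Equiv.coe_addRight]
  have e1 : X + 3 ^ (l - 1) + t = X + t + 3 ^ (l - 1) := by ring
  have e2 : X + 2 * 3 ^ (l - 1) + t = X + t + 2 * 3 ^ (l - 1) := by ring
  rw [e1, e2]

theorem osc_sub_le (l : ℕ) (g h : ZMod (3 ^ l) → ℝ) :
    oscf l (fun X => 2 * g X - h X) ≤ 2 * oscf l g + oscf l h := by
  unfold oscf
  rw [mul_sum, ← sum_add_distrib]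
  refine sum_le_sum fun X _ => ?_
  have e : 2 * g X - h X - (2 * g X - h X + (2 * g (X + 3 ^ (l - 1)) - h (X + 3 ^ (l - 1))) +
      (2 * g (X + 2 * 3 ^ (l - 1)) - h (X + 2 * 3 ^ (l - 1)))) / 3 =
      2 * (g X - (g X + g (X + 3 ^ (l - 1)) + g (X + 2 * 3 ^ (l - 1))) / 3) -
        (h X - (h X + h (X + 3 ^ (l - 1)) + h (X + 2 * 3 ^ (l - 1))) / 3) := by ring
  rw [e]
  refine (abs_sub _ _).trans ?_
  rw [abs_mul, abs_of_pos (show (0 : ℝ) < 2 by norm_num)]

theorem osc_nonneg (l : ℕ) (g : ZMod (3 ^ l) → ℝ) : 0 ≤ oscf l g := by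
  unfold oscf
  exact sum_nonneg fun _ _ => abs_nonneg _

/-- The joint oscillation of the words with `n` elements modulo `3 ^ l`. -/
noncomputable def Jl (l n c1 : ℕ) : ℝ := ∑ c ∈ range c1, oscf l (fl l n c)

theorem Jl_self (n c1 : ℕ) : Jl n n c1 = Josc n c1 := by
  unfold Jl Josc
  simp only [fl_self]

theorem Jl_succ (hF : FamSplitStatement) (hC : CatStatement) (hM : MassStatement) (l n c1 : ℕ) :
    Jl l n c1 ≤ 3 * Jl l (n + 1) (c1 + 1) := by
  have h1 : ∀ c ∈ range c1, oscf l (fl l n c) ≤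
      2 * oscf l (fl l (n + 1) (c + 1)) + oscf l (fl l (n + 1) c) := by
    intro c _
    have e : fl l n c = fun X => 2 * (fun Y => fl l (n + 1) (c + 1)
        (Y + 3 ^ n * (2 : ZMod (3 ^ l))⁻¹ ^ (c + 1))) X -
        (fun Y => fl l (n + 1) c (Y + 3 ^ n * (2 : ZMod (3 ^ l))⁻¹ ^ c)) X := by
      funext X
      exact fl_deconv hF hC hM l n c X
    rw [e]
    refine (osc_sub_le l _ _).trans ?_
    rw [osc_shift, osc_shift]
  unfold Jl
  refine (sum_le_sum h1).trans ?_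
  rw [sum_add_distrib, ← mul_sum]
  have h2 : ∑ c ∈ range c1, oscf l (fl l (n + 1) (c + 1)) ≤
      ∑ c ∈ range (c1 + 1), oscf l (fl l (n + 1) c) := by
    rw [sum_range_succ' _ c1]
    have := osc_nonneg l (fl l (n + 1) 0)
    linarith
  have h3 : ∑ c ∈ range c1, oscf l (fl l (n + 1) c) ≤
      ∑ c ∈ range (c1 + 1), oscf l (fl l (n + 1) c) := by
    rw [sum_range_succ]
    have := osc_nonneg l (fl l (n + 1) c1)
    linarith
  linarith

theorem Jl_add (hF : FamSplitStatement) (hC : CatStatement) (hM : MassStatement) (l : ℕ) (j : ℕ) :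
    ∀ n c1 : ℕ, Jl l n c1 ≤ 3 ^ j * Jl l (n + j) (c1 + j) := by
  induction j with
  | zero => intro n c1; simp
  | succ j ih =>
    intro n c1
    refine (Jl_succ hF hC hM l n c1).trans ?_
    have h := ih (n + 1) (c1 + 1)
    have e1 : n + 1 + j = n + (j + 1) := by ring
    have e2 : c1 + 1 + j = c1 + (j + 1) := by ring
    rw [e1, e2] at h
    rw [pow_succ]
    linarith

/-- The oscillation at a level above the number of elements. -/
theorem Jl_le (hF : FamSplitStatement) (hC : CatStatement) (hM : MassStatement) (n j c1 : ℕ) :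
    Jl (n + j) n c1 ≤ 3 ^ j * Josc (n + j) (c1 + j) := by
  rw [← Jl_self]
  exact Jl_add hF hC hM (n + j) j n c1

/-! ### Subsets of `[1, i]` -/

open Classical in
/-- Proportion of the subsets of `[1, i]` with `s` elements and residue `X` modulo `3 ^ l`. -/
noncomputable def pl (l i s : ℕ) (X : ZMod (3 ^ l)) : ℝ :=
  (((powersetCard s (Icc 1 i)).filter fun S => xz (3 ^ l) S = X).card : ℝ) / 2 ^ i

theorem Pc_eq (l i s : ℕ) (M : ℤ) : Pc l i s M = pl l i s (M : ZMod (3 ^ l)) := by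
  unfold Pc pl
  rfl

theorem pl_split (hP : PowSplitStatement) (l i s : ℕ) (X : ZMod (3 ^ l)) :
    pl l i s X = ∑ a ∈ range (i + 1), fl l s a X / 2 ^ (i - a) := by
  classical
  unfold pl
  rw [card_eq_sum_ones, sum_filter]
  push_cast
  rw [hP ℝ s s i (fun S => if xz (3 ^ l) S = X then (1 : ℝ) else 0) le_rfl, sum_div]
  refine sum_congr rfl fun a ha => ?_
  have ha' : a ≤ i := by
    have := mem_range.1 ha
    omega
  have h1 : ∀ A ∈ Fam s a, ∑ B ∈ powersetCard (s - s) (Icc 1 (i - a)),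
      (if xz (3 ^ l) (cat a A B) = X then (1 : ℝ) else 0) =
      if xz (3 ^ l) A = X then (1 : ℝ) else 0 := by
    intro A _
    rw [Nat.sub_self, powersetCard_zero, sum_singleton]
    have : cat a A ∅ = A := by
      unfold cat
      simp
    rw [this]
  rw [sum_congr rfl h1, ← nl_eq]
  unfold fl
  have h6 : (2 : ℝ) ^ i = 2 ^ a * 2 ^ (i - a) := by
    rw [← pow_add]
    congr 1
    omega
  rw [h6]
  field_simp

theorem osc_pl_le (hP : PowSplitStatement) (l i s : ℕ) : oscf l (pl l i s) ≤ Jl l s (i + 1) := by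
  unfold Jl
  have h1 : oscf l (pl l i s) ≤ ∑ a ∈ range (i + 1), oscf l (fl l s a) / 2 ^ (i - a) := by
    unfold oscf
    simp only [sum_div]
    rw [sum_comm]
    refine sum_le_sum fun X _ => ?_
    rw [pl_split hP, pl_split hP, pl_split hP]
    have e : ∑ a ∈ range (i + 1), fl l s a X / 2 ^ (i - a) -
        (∑ a ∈ range (i + 1), fl l s a X / 2 ^ (i - a) +
          ∑ a ∈ range (i + 1), fl l s a (X + 3 ^ (l - 1)) / 2 ^ (i - a) +
          ∑ a ∈ range (i + 1), fl l s a (X + 2 * 3 ^ (l - 1)) / 2 ^ (i - a)) / 3 =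
        ∑ a ∈ range (i + 1), (fl l s a X - (fl l s a X + fl l s a (X + 3 ^ (l - 1)) +
          fl l s a (X + 2 * 3 ^ (l - 1))) / 3) / 2 ^ (i - a) := by
      rw [← sum_add_distrib, ← sum_add_distrib, sum_div, ← sum_sub_distrib]
      refine sum_congr rfl fun a _ => ?_
      ring
    rw [e]
    refine (abs_sum_le_sum_abs _ _).trans (sum_le_sum fun a _ => ?_)
    rw [abs_div, abs_of_pos (show (0 : ℝ) < 2 ^ (i - a) by positivity)]
  refine h1.trans (sum_le_sum fun a _ => ?_)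
  refine div_le_self (osc_nonneg _ _) ?_
  exact one_le_pow₀ (by norm_num)

/-! ### The levels above `s` -/

/-- One level. -/
theorem step (hP : PowSplitStatement) (hF : FamSplitStatement) (hC : CatStatement)
    (hM : MassStatement) (d : Bool) (i s j : ℕ) (o : ℤ) (W : Finset ℕ) (ω : ℕ → ℝ) (Ω : ℝ)
    (hΩ : 0 ≤ Ω)
    (hr : ∀ r, ∑ M ∈ W.filter (fun M => M % 3 ^ (s + j + 1) = r), ω M ≤ Ω / 3 ^ (s + j + 1)) :
    ∑ M ∈ W, ω M * |3 ^ (s + j + 1) * Pc (s + j + 1) i s (sg d * M - o) -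
      3 ^ (s + j) * Pc (s + j) i s (sg d * M - o)| ≤
      Ω * (3 ^ (j + 1) * Josc (s + j + 1) (i + 1 + (j + 1))) := by
  set k := s + j with hk
  set h : ZMod (3 ^ (k + 1)) → ℝ := fun X => 3 ^ (k + 1) * |pl (k + 1) i s (X - o) -
    (pl (k + 1) i s (X - o) + pl (k + 1) i s (X - o + 3 ^ (k + 1 - 1)) +
      pl (k + 1) i s (X - o + 2 * 3 ^ (k + 1 - 1))) / 3| with hh
  have h1 : ∀ M ∈ W, ω M * |3 ^ (k + 1) * Pc (k + 1) i s (sg d * M - o) -
      3 ^ k * Pc k i s (sg d * M - o)| = ω M * h ((sg d * M : ℤ) : ZMod (3 ^ (k + 1))) := by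
    intro M _
    congr 1
    rw [H37.pc_lift k i s, Pc_eq, Pc_eq, Pc_eq, hh]
    simp only [Nat.add_sub_cancel]
    have e0 : ((sg d * M - o : ℤ) : ZMod (3 ^ (k + 1))) =
        ((sg d * M : ℤ) : ZMod (3 ^ (k + 1))) - o := by push_cast; ring
    have e1 : ((sg d * M - o + 3 ^ k : ℤ) : ZMod (3 ^ (k + 1))) =
        ((sg d * M : ℤ) : ZMod (3 ^ (k + 1))) - o + 3 ^ k := by push_cast; ring
    have e2 : ((sg d * M - o + 2 * 3 ^ k : ℤ) : ZMod (3 ^ (k + 1))) =
        ((sg d * M : ℤ) : ZMod (3 ^ (k + 1))) - o + 2 * 3 ^ k := by push_cast; ring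
    rw [e0, e1, e2]
    rw [← abs_of_pos (show (0 : ℝ) < 3 ^ (k + 1) by positivity), ← abs_mul,
      abs_of_pos (show (0 : ℝ) < 3 ^ (k + 1) by positivity)]
    congr 1
    rw [pow_succ]
    ring
  rw [sum_congr rfl h1]
  have h5 := H37.group_le d (k + 1) W ω Ω h (fun X => by rw [hh]; positivity) hr
  refine h5.trans ?_
  have h6 : ∑ X, h X = 3 ^ (k + 1) * oscf (k + 1) (pl (k + 1) i s) := by
    rw [← osc_shift (k + 1) (pl (k + 1) i s) (-(o : ZMod (3 ^ (k + 1))))]
    unfold oscf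
    rw [hh, mul_sum]
    refine sum_congr rfl fun X _ => ?_
    have e1 : X + 3 ^ (k + 1 - 1) + -(o : ZMod (3 ^ (k + 1))) = X - o + 3 ^ (k + 1 - 1) := by ring
    have e2 : X + 2 * 3 ^ (k + 1 - 1) + -(o : ZMod (3 ^ (k + 1))) =
        X - o + 2 * 3 ^ (k + 1 - 1) := by ring
    simp only [e1, e2, ← sub_eq_add_neg]
  rw [h6, ← mul_assoc, div_mul_cancel₀ _ (by positivity)]
  refine mul_le_mul_of_nonneg_left ?_ hΩ
  refine (osc_pl_le hP (k + 1) i s).trans ?_
  have h7 := Jl_le hF hC hM s (j + 1) (i + 1)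
  have e3 : s + (j + 1) = k + 1 := by omega
  rw [e3] at h7
  exact h7

/-- From the level `s + r` to the level `s`. -/
theorem mixr (hP : PowSplitStatement) (hF : FamSplitStatement) (hC : CatStatement)
    (hM : MassStatement) (hR : ResStatement) (d : Bool) (i s r k l : ℕ) (u : ℤ)
    (hs : 3 ^ (s + r) ≤ 2 ^ k) :
    ∑ M ∈ blk k l, 1 / (M : ℝ) *
        |3 ^ (s + r) * Pc (s + r) i s (sg d * M - 3 ^ s * u) - 3 ^ s * Pc s i s (sg d * M)| ≤
      ((l : ℝ) + 1) * ∑ j ∈ range r, 3 ^ (j + 1) * Josc (s + j + 1) (i + 1 + (j + 1)) := by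
  have key : ∀ r', r' ≤ r → ∑ M ∈ blk k l, 1 / (M : ℝ) *
        |3 ^ (s + r') * Pc (s + r') i s (sg d * M - 3 ^ s * u) - 3 ^ s * Pc s i s (sg d * M)| ≤
      ((l : ℝ) + 1) * ∑ j ∈ range r', 3 ^ (j + 1) * Josc (s + j + 1) (i + 1 + (j + 1)) := by
    intro r'
    induction r' with
    | zero =>
      intro _
      have h0 : ∀ M : ℕ, Pc (s + 0) i s (sg d * M - 3 ^ s * u) = Pc s i s (sg d * M) := by
        intro M
        rw [Nat.add_zero, Pc_eq, Pc_eq]
        congr 1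
        have h3 : (3 : ZMod (3 ^ s)) ^ s = 0 := by
          have := ZMod.natCast_self (3 ^ s)
          push_cast at this
          exact this
        push_cast
        rw [h3]
        ring
      simp only [h0]
      simp
    | succ t ih =>
      intro hts
      have h1 := ih (by omega)
      have h2 := step hP hF hC hM d i s t (3 ^ s * u) (blk k l) (fun M => 1 / (M : ℝ))
        ((l : ℝ) + 1) (by positivity) (fun q => by
          have h3 := hR (3 ^ (s + t + 1)) k l q (by positivity)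
            (le_trans (Nat.pow_le_pow_right (by norm_num) (by omega)) hs)
          push_cast at h3
          exact h3)
      rw [sum_range_succ, mul_add]
      refine le_trans ?_ (add_le_add h1 h2)
      rw [← sum_add_distrib]
      refine sum_le_sum fun M _ => ?_
      rw [← mul_add]
      refine mul_le_mul_of_nonneg_left ?_ (by positivity)
      have e : s + (t + 1) = s + t + 1 := by ring
      rw [e]
      have := abs_sub_le (3 ^ (s + t + 1) * Pc (s + t + 1) i s (sg d * M - 3 ^ s * u))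
        (3 ^ (s + t) * Pc (s + t) i s (sg d * M - 3 ^ s * u)) (3 ^ s * Pc s i s (sg d * M))
      linarith
  exact key r le_rfl

end Pool.Agent.Lib.MP_edb5be_nt.EQ
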